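import Pool.Agent.W_b4801b_t10d.Res

set_option autoImplicit false

/-!
# Semisimplicity of the generic fibre from one degenerate fibre

Let `f : X → S` be smooth projective over a curve `S` over a finitely generated field `k` of
characteristic zero, `K = k(S)`, `G = Gal(K̄ / K)` acting on `V = H^i(X_K̄, ℚ_ℓ)`, `N` the geometric
Galois group (`V|N` is semisimple and `End_N(V)` is pure of weight `0`: Deligne), `D` the decomposition
group of a point `s` of the compactification of `S` (a good point or a cusp), so that `D N` has finite
index in `G`, and `F` the (limit) weight filtration of `V`, that is, the monodromy filtration of the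
inertia group at `s`.

If the graded pieces of `F` are semisimple representations of `D` (on which `D` acts, up to a finite
group, through the Galois group of the residue field of `s`) then `V` is a semisimple representation
of `G`.
-/

open Pool.Agent.B4801b Pool.Agent.T10D Polynomial

universe u v

theorem Pool.Agent.T10D.oldDegeneration
    (ℓ : ℕ) [Fact ℓ.Prime] {G : Type u} [Group G] [TopologicalSpace G] [IsTopologicalGroup G]
    [CompactSpace G] {V : Type v} [AddCommGroup V] [Module ℚ_[ℓ] V] [FiniteDimensional ℚ_[ℓ] V]
    (ρ : Representation ℚ_[ℓ] G V) (hc : IsContinuousRep ρ) (N D : Subgroup G) (hN : N.Normal)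
    (hD : IsClosed (D : Set G)) (hDN : (D ⊔ N).FiniteIndex) (hss : SemisimpleOn ρ N)
    (φ : G) (hφ : φ ∈ D) (ι : AlgebraicClosure ℚ_[ℓ] →+* ℂ) (hE : EndPure ρ N φ ι)
    (F : WeightFil ρ D φ ι) (hF : F.GradedSemisimple) : IsSemisimpleRep ρ :=
  degeneration ℓ ρ hc N D hN hD hDN hss F.m F.F F.bot F.top F.mono F.stable hF φ hφ ι F.q F.one_lt
    F.wt F.strictMono F.pure (by
      obtain ⟨R, h1, h2, h3⟩ := hE
      exact ⟨R, h1, adRep_of_killsEnd ρ N φ R h2, h3⟩)
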