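import Pool.Agent.W_b4801b_t10d.Defs
import Pool.Agent.W_b4801b_h57.ChMain

/-! The endomorphism representation of a semisimple representation is semisimple. -/

set_option autoImplicit false

noncomputable section

namespace Pool.Agent.T10D

open Pool.Agent.B4801b

/-- Direct sums of semisimple representations are semisimple.
Proof. `W ⊆ M × M'` stable; take `W ∩ (M × 0)` with complement `C` in `M`, the image `W₂` of `W` in `M'` with
complement `C₂`; then `C × C₂` is a stable complement of `W`. -/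
theorem prod_semisimple {K : Type*} [Field K] {G : Type*} [Group G] {M M' : Type*} [AddCommGroup M]
    [Module K M] [AddCommGroup M'] [Module K M'] (ρ : Representation K G M)
    (ρ' : Representation K G M') (h : IsSemisimpleRep ρ) (h' : IsSemisimpleRep ρ') :
    IsSemisimpleRep (ρ.prod ρ') := by
  intro W hW
  obtain ⟨C, hC, hcC⟩ := h (W.comap (LinearMap.inl K M M')) (by
    intro σ x hx
    have h1 := hW σ _ hx
    change ((ρ σ x, (0 : M')) : M × M') ∈ W
    have h2 : (ρ.prod ρ') σ (LinearMap.inl K M M' x) = (ρ σ x, (0 : M')) := by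
      change (ρ σ x, ρ' σ 0) = (ρ σ x, (0 : M'))
      rw [map_zero]
    rwa [h2] at h1)
  obtain ⟨C₂, hC₂, hcC₂⟩ := h' (W.map (LinearMap.snd K M M')) (by
    rintro σ _ ⟨x, hx, rfl⟩
    exact ⟨_, hW σ x hx, rfl⟩)
  refine ⟨C.prod C₂, ?_, ?_⟩
  · intro σ x hx
    exact ⟨hC σ _ hx.1, hC₂ σ _ hx.2⟩
  · constructor
    · rw [Submodule.disjoint_def]
      rintro ⟨x, y⟩ hw ⟨hx, hy⟩
      have hy0 : y = 0 := Submodule.disjoint_def.1 hcC₂.disjoint y ⟨_, hw, rfl⟩ hy
      subst hy0
      have hx0 : x = 0 := Submodule.disjoint_def.1 hcC.disjoint x hw hx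
      rw [hx0]
      rfl
    · rw [codisjoint_iff, eq_top_iff]
      rintro ⟨x, y⟩ -
      have hy : y ∈ W.map (LinearMap.snd K M M') ⊔ C₂ := by
        rw [hcC₂.sup_eq_top]
        trivial
      obtain ⟨_, ⟨w, hw, rfl⟩, y₂, hy₂, hy⟩ := Submodule.mem_sup.1 hy
      have hx : x - w.1 ∈ W.comap (LinearMap.inl K M M') ⊔ C := by
        rw [hcC.sup_eq_top]
        trivial
      obtain ⟨a, ha, c, hc, hac⟩ := Submodule.mem_sup.1 hx
      refine Submodule.mem_sup.2 ⟨w + LinearMap.inl K M M' a, W.add_mem hw ha, (c, y₂), ⟨hc, hy₂⟩, ?_⟩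
      refine Prod.ext ?_ ?_
      · change w.1 + a + c = x
        rw [add_assoc, hac, add_sub_cancel]
      · change w.2 + 0 + y₂ = y
        rw [add_zero]
        exact hy

/-- The dual of a semisimple finite dimensional representation is semisimple.
Proof. Annihilators of stable subspaces (`Submodule.dualAnnihilator`, `Submodule.dualCoannihilator`). -/
theorem dual_semisimple {K : Type*} [Field K] {G : Type*} [Group G] {M : Type*} [AddCommGroup M]
    [Module K M] [FiniteDimensional K M] (ρ : Representation K G M) (h : IsSemisimpleRep ρ) :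
    IsSemisimpleRep ρ.dual := by
  intro W hW
  have hWA : W.dualCoannihilator.dualAnnihilator = W := by
    apply le_antisymm
    · intro φ hφ
      by_contra hn
      obtain ⟨f, hf, hfW⟩ := Submodule.exists_dual_map_eq_bot_of_notMem hn inferInstance
      obtain ⟨x, rfl⟩ := (Module.evalEquiv K M).surjective f
      apply hf
      refine (Submodule.mem_dualAnnihilator φ).1 hφ x ?_
      rw [Submodule.mem_dualCoannihilator]
      intro ψ hψ
      have h1 : (Module.evalEquiv K M x) ψ ∈ W.map (Module.evalEquiv K M x) := ⟨ψ, hψ, rfl⟩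
      rw [hfW] at h1
      exact h1
    · exact Submodule.le_dualCoannihilator_dualAnnihilator W
  obtain ⟨A', hA', hc⟩ := h W.dualCoannihilator (by
    intro σ x hx
    rw [Submodule.mem_dualCoannihilator] at hx ⊢
    intro φ hφ
    have h1 := hx _ (hW σ⁻¹ φ hφ)
    have h2 : (ρ.dual σ⁻¹ φ) x = φ (ρ σ x) := by
      change φ (ρ σ⁻¹⁻¹ x) = φ (ρ σ x)
      rw [inv_inv]
    rwa [h2] at h1)
  refine ⟨A'.dualAnnihilator, ?_, ?_⟩
  · intro σ φ hφ
    rw [Submodule.mem_dualAnnihilator] at hφ ⊢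
    intro x hx
    exact hφ _ (hA' σ⁻¹ x hx)
  · have h1 := Subspace.isCompl_dualAnnihilator hc
    rwa [hWA] at h1

/-- Descent of equivariant projections from `Ω` to `K`. -/
theorem Chev_descent {K Ω : Type*} [Field K] [Field Ω] [Algebra K Ω] {G : Type*} {ι : Type*}
    [Fintype ι] [DecidableEq ι] (A : G → Matrix ι ι K)
    (hΩ : ∀ U : Submodule Ω (ι → Ω), (∀ σ, B4801bC.Stb ((A σ).map (algebraMap K Ω)) U) →
      ∃ P : Module.End Ω (ι → Ω), (∀ v, P v ∈ U) ∧ (∀ v ∈ U, P v = v) ∧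
        ∀ σ, Commute P (Matrix.toLin' ((A σ).map (algebraMap K Ω))))
    (W : Submodule K (ι → K)) (hW : ∀ σ, B4801bC.Stb (A σ) W) :
    ∃ W' : Submodule K (ι → K), (∀ σ, B4801bC.Stb (A σ) W') ∧ IsCompl W W' := by
  classical
  obtain ⟨lam, hlam⟩ := (Algebra.linearMap K Ω).exists_leftInverse_of_injective
    (LinearMap.ker_eq_bot.2 (algebraMap K Ω).injective)
  have hlam1 : ∀ c : K, lam (algebraMap K Ω c) = c := fun c => LinearMap.congr_fun hlam c
  have hlam2 : ∀ (c : K) (z : Ω), lam (algebraMap K Ω c * z) = c * lam z := by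
    intro c z
    rw [← Algebra.smul_def, map_smul, smul_eq_mul]
  -- extension of vectors
  let ext : (ι → K) →ₗ[K] (ι → Ω) := (Algebra.linearMap K Ω).compLeft ι
  have hext : ∀ v i, ext v i = algebraMap K Ω (v i) := fun v i => rfl
  have hextA : ∀ σ v, ((A σ).map (algebraMap K Ω)).mulVec (ext v) = ext ((A σ).mulVec v) := by
    intro σ v
    funext i
    rw [hext, Matrix.mulVec, Matrix.mulVec, dotProduct, dotProduct, map_sum]
    refine Finset.sum_congr rfl fun j _ => ?_
    rw [map_mul]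
    rfl
  let U : Submodule Ω (ι → Ω) := Submodule.span Ω (ext '' (W : Set (ι → K)))
  have hU : ∀ σ, B4801bC.Stb ((A σ).map (algebraMap K Ω)) U := by
    intro σ v hv
    change v ∈ Submodule.span Ω (ext '' (W : Set (ι → K))) at hv
    induction hv using Submodule.span_induction with
    | mem x hx =>
      obtain ⟨w, hw, rfl⟩ := hx
      rw [hextA]
      exact Submodule.subset_span ⟨_, hW σ w hw, rfl⟩
    | zero => rw [Matrix.mulVec_zero]; exact U.zero_mem
    | add x y _ _ hx hy => rw [Matrix.mulVec_add]; exact U.add_mem hx hy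
    | smul c x _ hx => rw [Matrix.mulVec_smul]; exact U.smul_mem c hx
  obtain ⟨P, hP1, hP2, hP3⟩ := hΩ U hU
  let P₀ : (ι → K) →ₗ[K] (ι → K) := (lam.compLeft ι) ∘ₗ (P.restrictScalars K) ∘ₗ ext
  have hP₀ : ∀ v i, P₀ v i = lam (P (ext v) i) := fun v i => rfl
  have hlamU : ∀ u ∈ U, lam.compLeft ι u ∈ W := by
    intro u hu
    change u ∈ Submodule.span Ω (ext '' (W : Set (ι → K))) at hu
    -- stronger: for all multiples
    have key : ∀ c : Ω, lam.compLeft ι (c • u) ∈ W := by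
      induction hu using Submodule.span_induction with
      | mem x hx =>
        obtain ⟨w, hw, rfl⟩ := hx
        intro c
        have h1 : lam.compLeft ι (c • ext w) = lam c • w := by
          funext i
          change lam (c * algebraMap K Ω (w i)) = lam c * w i
          rw [mul_comm c, hlam2, mul_comm]
        rw [h1]
        exact W.smul_mem _ hw
      | zero => intro c; rw [smul_zero, map_zero]; exact W.zero_mem
      | add x y _ _ hx hy => intro c; rw [smul_add, map_add]; exact W.add_mem (hx c) (hy c)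
      | smul d x _ hx => intro c; rw [smul_smul]; exact hx (c * d)
    have h1 := key 1
    rwa [one_smul] at h1
  have hP₀W : ∀ v, P₀ v ∈ W := fun v => hlamU _ (hP1 _)
  have hP₀id : ∀ v ∈ W, P₀ v = v := by
    intro v hv
    funext i
    rw [hP₀, hP2 (ext v) (Submodule.subset_span ⟨v, hv, rfl⟩), hext, hlam1]
  have hP₀A : ∀ σ v, P₀ ((A σ).mulVec v) = (A σ).mulVec (P₀ v) := by
    intro σ v
    funext i
    rw [hP₀, ← hextA]
    have h1 : P (((A σ).map (algebraMap K Ω)).mulVec (ext v)) =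
        ((A σ).map (algebraMap K Ω)).mulVec (P (ext v)) := LinearMap.congr_fun (hP3 σ).eq (ext v)
    rw [h1, Matrix.mulVec, Matrix.mulVec, dotProduct, dotProduct, map_sum]
    refine Finset.sum_congr rfl fun j _ => ?_
    rw [hP₀, Matrix.map_apply, hlam2]
  refine ⟨LinearMap.ker P₀, ?_, ?_⟩
  · intro σ v hv
    rw [LinearMap.mem_ker] at hv ⊢
    rw [hP₀A, hv, Matrix.mulVec_zero]
  · constructor
    · rw [Submodule.disjoint_def]
      intro v hv hv0
      rw [LinearMap.mem_ker] at hv0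
      rw [← hP₀id v hv, hv0]
    · rw [codisjoint_iff, eq_top_iff]
      intro v _
      refine Submodule.mem_sup.2 ⟨P₀ v, hP₀W v, v - P₀ v, ?_, add_sub_cancel _ _⟩
      rw [LinearMap.mem_ker, map_sub, hP₀id _ (hP₀W v), sub_self]

/-- Subrepresentations of semisimple representations are semisimple. -/
theorem Chev_sub {K : Type*} [Field K] {G : Type*} [Group G] {M N : Type*} [AddCommGroup M]
    [Module K M] [AddCommGroup N] [Module K N] (ρ : Representation K G M) (τ : G → N → N)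
    (Φ : M →ₗ[K] N) (hinj : Function.Injective Φ) (hΦ : ∀ σ x, Φ (ρ σ x) = τ σ (Φ x))
    (h : ∀ W : Submodule K N, (∀ σ, ∀ x ∈ W, τ σ x ∈ W) →
      ∃ W' : Submodule K N, (∀ σ, ∀ x ∈ W', τ σ x ∈ W') ∧ IsCompl W W') :
    IsSemisimpleRep ρ := by
  intro W hW
  obtain ⟨C, hC, hc⟩ := h (W.map Φ) (by
    rintro σ _ ⟨x, hx, rfl⟩
    exact ⟨ρ σ x, hW σ x hx, hΦ σ x⟩)
  refine ⟨C.comap Φ, ?_, ?_⟩
  · intro σ x hx
    change Φ (ρ σ x) ∈ C
    rw [hΦ]
    exact hC σ _ hx
  · constructor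
    · rw [Submodule.disjoint_def]
      intro x hx hx'
      apply hinj
      rw [map_zero]
      exact Submodule.disjoint_def.1 hc.disjoint _ ⟨x, hx, rfl⟩ hx'
    · rw [codisjoint_iff, eq_top_iff]
      intro x _
      have hx : Φ x ∈ W.map Φ ⊔ C := by
        rw [hc.sup_eq_top]
        trivial
      obtain ⟨_, ⟨w, hw, rfl⟩, c, hcC, hwc⟩ := Submodule.mem_sup.1 hx
      refine Submodule.mem_sup.2 ⟨w, hw, x - w, ?_, add_sub_cancel _ _⟩
      change Φ (x - w) ∈ C
      rw [map_sub, ← hwc, add_sub_cancel_left]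
      exact hcC

/-- `u ⊗ v` as a vector indexed by `Fin 2 → Fin n`. -/
def Chev_ten {K : Type*} [Field K] (n : ℕ) :
    (Fin n → K) →ₗ[K] (Fin n → K) →ₗ[K] ((Fin 2 → Fin n) → K) :=
  LinearMap.mk₂ K (fun u v I => u (I 0) * v (I 1))
    (fun u u' v => by funext I; simp only [Pi.add_apply, add_mul])
    (fun c u v => by funext I; simp only [Pi.smul_apply, smul_eq_mul, mul_assoc])
    (fun u v v' => by funext I; simp only [Pi.add_apply, mul_add])
    (fun c u v => by funext I; simp only [Pi.smul_apply, smul_eq_mul]; ring)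

theorem Chev_ten_apply {K : Type*} [Field K] (n : ℕ) (u v : Fin n → K) (I : Fin 2 → Fin n) :
    Chev_ten n u v I = u (I 0) * v (I 1) := rfl

theorem Chev_tp {K : Type*} [Field K] (n : ℕ) (A : B4801bT.Mat n K) (u v : Fin n → K) :
    (B4801bT.tp 2 A).mulVec (Chev_ten n u v) = Chev_ten n (A.mulVec u) (A.mulVec v) := by
  funext I
  rw [Chev_ten_apply, Matrix.mulVec, dotProduct, Matrix.mulVec, dotProduct, Matrix.mulVec, dotProduct,
    Finset.sum_mul_sum, ← Finset.sum_product']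
  refine Finset.sum_equiv (finTwoArrowEquiv (Fin n)) (by simp) ?_
  intro J _
  rw [Chev_ten_apply, B4801bT.tp, Fin.prod_univ_two]
  change A (I 0) (J 0) * A (I 1) (J 1) * (u (J 0) * v (J 1)) =
    A (I 0) (J 0) * u (J 0) * (A (I 1) (J 1) * v (J 1))
  ring

/-- transport of complements to coordinates -/
theorem Chev_compl {K : Type*} [Field K] {V : Type*} [AddCommGroup V] [Module K V] {n : ℕ}
    {G : Type*} [Group G] (ρ : Representation K G V) (bs : Module.Basis (Fin n) K V)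
    (R : G →* B4801bT.Mat n K) (hR : ∀ σ x, (R σ).mulVec (bs.equivFun x) = bs.equivFun (ρ σ x))
    (hss : IsSemisimpleRep ρ) (W : Submodule K (Fin n → K)) (hW : ∀ σ, B4801bC.Stb (R σ) W) :
    ∃ W' : Submodule K (Fin n → K), (∀ σ, B4801bC.Stb (R σ) W') ∧ IsCompl W W' := by
  obtain ⟨W', hW', hc⟩ := hss (W.comap (bs.equivFun : V →ₗ[K] Fin n → K)) (by
    intro σ x hx
    change bs.equivFun (ρ σ x) ∈ W
    rw [← hR]
    exact hW σ _ hx)
  refine ⟨W'.map (bs.equivFun : V →ₗ[K] Fin n → K), ?_, ?_⟩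
  · rintro σ _ ⟨x, hx, rfl⟩
    exact ⟨ρ σ x, hW' σ x hx, (hR σ x).symm⟩
  · have h1 : W = (W.comap (bs.equivFun : V →ₗ[K] Fin n → K)).map
        (bs.equivFun : V →ₗ[K] Fin n → K) := by
      rw [Submodule.map_comap_eq_of_surjective bs.equivFun.surjective]
    rw [h1]
    exact (Submodule.orderIsoMapComap bs.equivFun).isCompl hc

open scoped TensorProduct in
/-- The map `M* ⊗ M → M' ⊗ M'`, `M' = M × M*`. -/
def Chev_L {K : Type*} [Field K] {M : Type*} [AddCommGroup M] [Module K M] {n : ℕ}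
    (bs : Module.Basis (Fin n) K (M × Module.Dual K M)) :
    (Module.Dual K M ⊗[K] M) →ₗ[K] ((Fin 2 → Fin n) → K) :=
  TensorProduct.lift ((Chev_ten n).compl₁₂
    ((bs.equivFun : (M × Module.Dual K M) →ₗ[K] Fin n → K) ∘ₗ LinearMap.inl K M (Module.Dual K M))
    ((bs.equivFun : (M × Module.Dual K M) →ₗ[K] Fin n → K) ∘ₗ
      LinearMap.inr K M (Module.Dual K M))).flip

open scoped TensorProduct in
theorem Chev_L_tmul {K : Type*} [Field K] {M : Type*} [AddCommGroup M] [Module K M] {n : ℕ}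
    (bs : Module.Basis (Fin n) K (M × Module.Dual K M)) (φ : Module.Dual K M) (x : M) :
    Chev_L bs (φ ⊗ₜ[K] x) = Chev_ten n (bs.equivFun (x, 0)) (bs.equivFun (0, φ)) := rfl

open scoped TensorProduct in
theorem Chev_L_inj {K : Type*} [Field K] {M : Type*} [AddCommGroup M] [Module K M] {n : ℕ}
    (bs : Module.Basis (Fin n) K (M × Module.Dual K M)) : Function.Injective (Chev_L bs) := by
  let Ψ : ((Fin 2 → Fin n) → K) →ₗ[K] (Module.Dual K M ⊗[K] M) :=
    ∑ I : Fin 2 → Fin n, (LinearMap.proj I : ((Fin 2 → Fin n) → K) →ₗ[K] K).smulRight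
      ((bs (I 1)).2 ⊗ₜ[K] (bs (I 0)).1)
  have hΨ : Ψ ∘ₗ Chev_L bs = LinearMap.id := by
    refine TensorProduct.ext' fun φ x => ?_
    have e1 : φ = ∑ j, bs.equivFun (0, φ) j • (bs j).2 := by
      have h1 := bs.sum_equivFun ((0, φ) : M × Module.Dual K M)
      have h2 := congrArg (LinearMap.snd K M (Module.Dual K M)) h1
      rw [map_sum] at h2
      simp only [map_smul, LinearMap.snd_apply] at h2
      exact h2.symm
    have e2 : x = ∑ i, bs.equivFun (x, 0) i • (bs i).1 := by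
      have h1 := bs.sum_equivFun ((x, 0) : M × Module.Dual K M)
      have h2 := congrArg (LinearMap.fst K M (Module.Dual K M)) h1
      rw [map_sum] at h2
      simp only [map_smul, LinearMap.fst_apply] at h2
      exact h2.symm
    rw [LinearMap.comp_apply, LinearMap.id_apply, Chev_L_tmul]
    change (∑ I : Fin 2 → Fin n, (LinearMap.proj I : ((Fin 2 → Fin n) → K) →ₗ[K] K).smulRight
      ((bs (I 1)).2 ⊗ₜ[K] (bs (I 0)).1)) _ = _
    rw [LinearMap.sum_apply]
    have e3 : φ ⊗ₜ[K] x = ∑ i, ∑ j, (bs.equivFun (x, 0) i * bs.equivFun (0, φ) j) •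
        ((bs j).2 ⊗ₜ[K] (bs i).1) := by
      conv_lhs => rw [e2, TensorProduct.tmul_sum]
      refine Finset.sum_congr rfl fun i _ => ?_
      conv_lhs => rw [e1, TensorProduct.sum_tmul]
      refine Finset.sum_congr rfl fun j _ => ?_
      rw [TensorProduct.smul_tmul_smul, mul_comm]
    rw [e3, ← Finset.sum_product']
    refine Finset.sum_equiv (finTwoArrowEquiv (Fin n)) (by simp) ?_
    intro I _
    rw [LinearMap.smulRight_apply, LinearMap.proj_apply, Chev_ten_apply]
    rfl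
  intro s t hst
  have h1 := LinearMap.congr_fun hΨ s
  have h2 := LinearMap.congr_fun hΨ t
  rw [LinearMap.comp_apply, LinearMap.id_apply] at h1 h2
  rw [← h1, ← h2, hst]

/-- Chevalley's theorem for the endomorphisms of `M`.

Proof. Let `M' = M × M*` with basis `bs` (`n = 2 dim M`; if `M = 0` everything is trivial) and
`R : Γ →* Mat n ℚ_ℓ` the matrices of `ρ.prod ρ.dual`: continuous, semisimple (`prod_semisimple`,
`dual_semisimple`). `End(M) → M' ⊗ M' = ((Fin 2 → Fin n) → ℚ_ℓ)`, `f ↦ ∑ i, f(e_i) ⊗ e_i*`, is injective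
and equivariant for `adRep` and `tp 2 (R σ)`. Let `H ⊆ End(M)` be stable. By
`B4801bC.chev_proj` (over `Ω = AlgebraicClosure ℚ_[ℓ]`, `a = 2`) the image of `H ⊗ Ω` has an equivariant
projection. The existence of a linear map `P : End(M) → H` with `P|H = id`, commuting with `adRep ρ σ` for all
`σ`, is a system of linear equations over `ℚ_ℓ`, solvable over `Ω`, hence over `ℚ_ℓ` (apply a `ℚ_ℓ`-linear map
`Ω → ℚ_ℓ` which is the identity on `ℚ_ℓ` to the matrix entries of the projection). -/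
theorem end_semisimple (ℓ : ℕ) [Fact ℓ.Prime] {Γ : Type*} [Group Γ] [TopologicalSpace Γ]
    [IsTopologicalGroup Γ] [CompactSpace Γ] {M : Type*} [AddCommGroup M] [Module ℚ_[ℓ] M]
    [FiniteDimensional ℚ_[ℓ] M] (ρ : Representation ℚ_[ℓ] Γ M) (hc : IsContinuousRep ρ)
    (hs : IsSemisimpleRep ρ) : IsSemisimpleRep (adRep ρ) := by
  classical
  set τ : Representation ℚ_[ℓ] Γ (M × Module.Dual ℚ_[ℓ] M) := ρ.prod ρ.dual with hτ
  have hτs : IsSemisimpleRep τ := prod_semisimple ρ ρ.dual hs (dual_semisimple ρ hs)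
  have hτc : IsContinuousRep τ := by
    intro f x
    have h1 : ∀ σ, f (τ σ x) = f (ρ σ x.1, 0) + f (0, x.2 ∘ₗ ρ σ⁻¹) := by
      intro σ
      rw [← map_add, Prod.mk_add_mk, add_zero, zero_add]
      rfl
    simp only [h1]
    refine Continuous.add (hc (f ∘ₗ LinearMap.inl ℚ_[ℓ] M (Module.Dual ℚ_[ℓ] M)) x.1) ?_
    obtain ⟨y, hy⟩ := (Module.evalEquiv ℚ_[ℓ] M).surjective
      (f ∘ₗ LinearMap.inr ℚ_[ℓ] M (Module.Dual ℚ_[ℓ] M))
    have h2 : ∀ φ : Module.Dual ℚ_[ℓ] M, f (0, φ) = φ y := fun φ => (LinearMap.congr_fun hy φ).symm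
    simp only [h2]
    exact (hc x.2 y).comp continuous_inv
  set n := Module.finrank ℚ_[ℓ] (M × Module.Dual ℚ_[ℓ] M) with hn
  set bs : Module.Basis (Fin n) ℚ_[ℓ] (M × Module.Dual ℚ_[ℓ] M) := Module.finBasis _ _ with hbs
  let R : Γ →* B4801bT.Mat n ℚ_[ℓ] :=
    ((LinearMap.toMatrixAlgEquiv bs : _ ≃ₐ[ℚ_[ℓ]] B4801bT.Mat n ℚ_[ℓ]) :
      _ →* B4801bT.Mat n ℚ_[ℓ]).comp τ
  have hR : ∀ σ, R σ = LinearMap.toMatrix bs bs (τ σ) := fun σ => rfl
  have hRv : ∀ σ x, (R σ).mulVec (bs.equivFun x) = bs.equivFun (τ σ x) := by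
    intro σ x
    rw [hR]
    exact LinearMap.toMatrix_mulVec_repr bs bs (τ σ) x
  have hRc : ∀ i j, Continuous fun σ => R σ i j := by
    intro i j
    have h1 : ∀ σ, R σ i j = bs.coord i (τ σ (bs j)) := by
      intro σ
      rw [hR, LinearMap.toMatrix_apply]
      rfl
    simp only [h1]
    exact hτc (bs.coord i) (bs j)
  let RK : Γ →* B4801bT.Mat n (AlgebraicClosure ℚ_[ℓ]) :=
    ((algebraMap ℚ_[ℓ] (AlgebraicClosure ℚ_[ℓ])).mapMatrix :
      B4801bT.Mat n ℚ_[ℓ] →+* _).toMonoidHom.comp R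
  have hRK : ∀ σ, RK σ = (R σ).map (algebraMap ℚ_[ℓ] (AlgebraicClosure ℚ_[ℓ])) := fun σ => rfl
  have hT : ∀ W : Submodule ℚ_[ℓ] ((Fin 2 → Fin n) → ℚ_[ℓ]),
      (∀ σ, B4801bC.Stb (B4801bT.tp 2 (R σ)) W) →
        ∃ W' : Submodule ℚ_[ℓ] ((Fin 2 → Fin n) → ℚ_[ℓ]),
          (∀ σ, B4801bC.Stb (B4801bT.tp 2 (R σ)) W') ∧ IsCompl W W' := by
    intro W hW
    refine Chev_descent (Ω := AlgebraicClosure ℚ_[ℓ]) (fun σ => B4801bT.tp 2 (R σ)) ?_ W hW
    intro U hU
    simp only [← B4801bT.tp_map, ← hRK] at hU ⊢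
    exact B4801bC.chev_proj ℓ (a := 2) (by norm_num) R hRc (Chev_compl τ bs R hRv hτs) RK hRK U hU
  refine Chev_sub (adRep ρ) (fun σ => (B4801bT.tp 2 (R σ)).mulVec)
    (Chev_L bs ∘ₗ (dualTensorHomEquiv ℚ_[ℓ] M M).symm.toLinearMap) ?_ ?_ hT
  · exact (Chev_L_inj bs).comp (dualTensorHomEquiv ℚ_[ℓ] M M).symm.injective
  · intro σ f
    obtain ⟨t, rfl⟩ := (dualTensorHomEquiv ℚ_[ℓ] M M).surjective f
    have h1 : adRep ρ σ (dualTensorHomEquiv ℚ_[ℓ] M M t) = dualTensorHomEquiv ℚ_[ℓ] M M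
        (TensorProduct.map (ρ.dual σ) (ρ σ) t) :=
      (LinearMap.congr_fun (Representation.dualTensorHom_comm ρ ρ σ) t).symm
    rw [h1]
    simp only [LinearMap.comp_apply, LinearEquiv.coe_coe, LinearEquiv.symm_apply_apply]
    induction t using TensorProduct.induction_on with
    | zero => rw [map_zero, map_zero, Matrix.mulVec_zero]
    | add s t hs' ht' =>
      rw [map_add, map_add, map_add, Matrix.mulVec_add]
      rw [hs', ht']
      · exact (LinearMap.congr_fun (Representation.dualTensorHom_comm ρ ρ σ) t).symm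
      · exact (LinearMap.congr_fun (Representation.dualTensorHom_comm ρ ρ σ) s).symm
    | tmul φ x =>
      rw [TensorProduct.map_tmul, Chev_L_tmul, Chev_L_tmul, Chev_tp, hRv, hRv]
      have e1 : τ σ (x, 0) = (ρ σ x, 0) := by
        change (ρ σ x, ρ.dual σ 0) = (ρ σ x, (0 : Module.Dual ℚ_[ℓ] M))
        rw [map_zero]
      have e2 : τ σ (0, φ) = (0, ρ.dual σ φ) := by
        change (ρ σ 0, ρ.dual σ φ) = ((0 : M), ρ.dual σ φ)
        rw [map_zero]
      rw [e1, e2]

end Pool.Agent.T10D
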