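import Pool.Agent.W_MP_b4801b_h67.Defs

/-!
# Semisimplicity of the generic fibre from one degenerate fibre: definitions

Paper proof (helper24, helper32).  `f : X → S` smooth projective over a curve `S` over a finitely
generated field `k` of characteristic zero, `K = k(S)`, `G = Gal(K̄ / K)` acting on
`V = H^i(X_K̄, ℚ_ℓ)`, `N` = the geometric Galois group (`V|N` is semisimple: Deligne), `D` = the
decomposition group of a point `s` of the compactification of `S` (a good point or a cusp), so that `D N`
has finite index in `G`.  `D` respects the (limit) weight filtration `F` of `V`.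

THEOREM. If the graded pieces of `F` are semisimple representations of `D` then `V` is a semisimple
representation of `G`.
-/

set_option autoImplicit false

noncomputable section

open Polynomial

namespace Pool.Agent.T10D

open Pool.Agent.B4801b

variable {K : Type*} [Field K] {V : Type*} [AddCommGroup V] [Module K V] {G : Type*} [Group G]

/-- The subspace `W` is stable under the subgroup `H`. -/
def StableUnder (ρ : Representation K G V) (H : Subgroup G) (W : Submodule K V) : Prop :=
  ∀ σ ∈ H, ∀ x ∈ W, ρ σ x ∈ W

/-- The restriction of `ρ` to `H` is semisimple: every `H`-stable subspace has an `H`-stable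
complement. -/
def SemisimpleOn (ρ : Representation K G V) (H : Subgroup G) : Prop :=
  ∀ W : Submodule K V, StableUnder ρ H W →
    ∃ W' : Submodule K V, StableUnder ρ H W' ∧ IsCompl W W'

/-- For `A ≤ B` stable under `H`: the representation of `H` on `B / A` is semisimple. -/
def SemisimpleBetween (ρ : Representation K G V) (H : Subgroup G) (A B : Submodule K V) : Prop :=
  ∀ U : Submodule K V, StableUnder ρ H U → A ≤ U → U ≤ B →
    ∃ U' : Submodule K V, StableUnder ρ H U' ∧ U ⊓ U' = A ∧ U ⊔ U' = B

/-- The algebra of the endomorphisms of `V` which commute with `N`. -/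
def endN (ρ : Representation K G V) (N : Subgroup G) : Submodule K (Module.End K V) where
  carrier := {f | ∀ σ ∈ N, ∀ x, f (ρ σ x) = ρ σ (f x)}
  add_mem' := by
    intro f g hf hg σ hσ x
    simp only [LinearMap.add_apply, hf σ hσ x, hg σ hσ x, map_add]
  zero_mem' := by
    intro σ _ x
    simp
  smul_mem' := by
    intro c f hf σ hσ x
    simp only [LinearMap.smul_apply, hf σ hσ x, map_smul]

/-- The action of `G` on the endomorphisms of `V` by conjugation. -/
def adRep (ρ : Representation K G V) : Representation K G (Module.End K V) where
  toFun σ := LinearMap.mulLeft K (ρ σ) ∘ₗ LinearMap.mulRight K (ρ σ⁻¹)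
  map_one' := by
    ext f x
    simp
  map_mul' σ τ := by
    ext f x
    simp [mul_assoc, mul_inv_rev]

/-- The operator `φ` is pure on `B / A` of weight `w` (with respect to `q` and `ι`): all eigenvalues
`α` of `φ` on `B / A` satisfy `|ι(α)| = q ^ (w / 2)`. In terms of a polynomial `p` which annihilates
`φ` on `B / A`. -/
def PureBetween (φ : Module.End K V) (ι : AlgebraicClosure K →+* ℂ) (q : ℝ) (w : ℤ)
    (A B : Submodule K V) : Prop :=
  ∃ p : K[X], p ≠ 0 ∧ (∀ x ∈ B, aeval φ p x ∈ A) ∧
    ∀ α : AlgebraicClosure K, aeval α p = 0 → ‖ι α‖ = q ^ ((w : ℝ) / 2)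

end Pool.Agent.T10D
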