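import Pool.Agent.W_b4801b_t10d.Defs

/-! Maps between spaces with disjoint eigenvalues. -/

set_option autoImplicit false

noncomputable section

open Polynomial

namespace Pool.Agent.T10D

variable {K : Type*} [Field K]

open scoped IsMulCommutative in
theorem Eig_unit {M : Type*} [Ring M] [Algebra K M] [Module.Finite K M] (C L P : M)
    (h1 : C * L = L * C) (h2 : C * P = P * C) (h3 : L * P = P * L) (h4 : C * P = L)
    (p s R : K[X]) (hp : aeval P p = 0) (hs : aeval L s = 0)
    (hno : ∀ r α β : AlgebraicClosure K, aeval r R = 0 → aeval α p = 0 → aeval β s = 0 →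
      β ≠ r * α) : IsUnit (aeval C R) := by
  have hcomm : ∀ a ∈ ({C, L, P} : Set M), ∀ b ∈ ({C, L, P} : Set M), a * b = b * a := by
    intro a ha b hb
    simp only [Set.mem_insert_iff, Set.mem_singleton_iff] at ha hb
    rcases ha with rfl | rfl | rfl <;> rcases hb with rfl | rfl | rfl <;>
      first | rfl | exact h1 | exact h1.symm | exact h2 | exact h2.symm | exact h3 | exact h3.symm
  let S := Algebra.adjoin K ({C, L, P} : Set M)
  have hS : IsMulCommutative S := Algebra.isMulCommutative_adjoin K hcomm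
  let C' : S := ⟨C, Algebra.subset_adjoin (by simp)⟩
  let L' : S := ⟨L, Algebra.subset_adjoin (by simp)⟩
  let P' : S := ⟨P, Algebra.subset_adjoin (by simp)⟩
  have hval : ∀ (q : K[X]) (x : S), S.val (aeval x q) = aeval (x : M) q := by
    intro q x
    rw [← Polynomial.aeval_algHom_apply]
    rfl
  have hpS : aeval P' p = 0 := by
    apply Subtype.ext
    have := hval p P'
    rw [hp] at this
    exact this
  have hsS : aeval L' s = 0 := by
    apply Subtype.ext
    have := hval s L'
    rw [hs] at this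
    exact this
  have hCP : C' * P' = L' := Subtype.ext h4
  by_cases hu : IsUnit (aeval C' R)
  · have := hu.map S.val
    rwa [hval] at this
  · exfalso
    obtain ⟨m, hm, hmem⟩ := exists_max_ideal_of_mem_nonunits (mem_nonunits_iff.2 hu)
    let _ : Field (S ⧸ m) := Ideal.Quotient.field m
    have : Module.Finite K (S ⧸ m) := inferInstance
    have : Algebra.IsAlgebraic K (S ⧸ m) := inferInstance
    let χ : S →ₐ[K] AlgebraicClosure K :=
      (IsAlgClosed.lift : (S ⧸ m) →ₐ[K] AlgebraicClosure K).comp (Ideal.Quotient.mkₐ K m)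
    have hχ : χ (aeval C' R) = 0 := by
      show (IsAlgClosed.lift : (S ⧸ m) →ₐ[K] AlgebraicClosure K) (Ideal.Quotient.mk m _) = 0
      rw [Ideal.Quotient.eq_zero_iff_mem.2 hmem, map_zero]
    refine hno (χ C') (χ P') (χ L') ?_ ?_ ?_ ?_
    · rw [Polynomial.aeval_algHom_apply, hχ]
    · rw [Polynomial.aeval_algHom_apply, hpS, map_zero]
    · rw [Polynomial.aeval_algHom_apply, hsS, map_zero]
    · rw [← map_mul, hCP]

/-- A map which intertwines two operators intertwines their polynomials. -/
theorem Eig_inter {X Y : Type*} [AddCommGroup X] [Module K X] [AddCommGroup Y] [Module K Y]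
    (u : Module.End K X) (v : Module.End K Y) (j : X →ₗ[K] Y) (h : ∀ x, j (u x) = v (j x))
    (q : K[X]) (x : X) : j (aeval u q x) = aeval v q (j x) := by
  have hpow : ∀ (n : ℕ) (x : X), j ((u ^ n) x) = (v ^ n) (j x) := by
    intro n
    induction n with
    | zero => intro x; rfl
    | succ n ih =>
      intro x
      rw [pow_succ, pow_succ, Module.End.mul_apply, Module.End.mul_apply, ih, h]
  induction q using Polynomial.induction_on' with
  | add p q hp hq =>
    rw [map_add, map_add, LinearMap.add_apply, LinearMap.add_apply, map_add, hp, hq]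
  | monomial n c =>
    rw [aeval_monomial, aeval_monomial, Module.End.mul_apply, Module.End.mul_apply,
      Module.algebraMap_end_apply, Module.algebraMap_end_apply, map_smul, hpow]

/-- Let `a`, `b` be operators on the finite dimensional spaces `A`, `B`, `p(a) = 0`, `s(b) = 0`, and let
`E` be a finite dimensional space with an operator `t`, `R(t) = 0`, and `T : E → Hom(A, B)` linear with
`T(t f) ∘ a = b ∘ T(f)`. If there are no roots `ρ` of `R`, `α` of `p` and `β` of `s` with `β = ρ α` then
`T = 0`.

Proof. The kernel of `T` is stable under `t`? Indeed `T f = 0` gives `T(t f) ∘ a = 0`; assume `a`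
invertible (`0` is not a root of `p` may be assumed: see the hypothesis `ha`). So `t` acts on the image
`I = T(E)`. Over the algebraic closure `Ω`: if `I ≠ 0` then `I_Ω ⊆ Hom(A_Ω, B_Ω)` contains an eigenvector
`g ≠ 0` of the operator induced by `t`, with eigenvalue `ρ`, `R(ρ) = 0`: `ρ g a = b g`. Then
`0 = s(b) g = g s(ρ a)`, and `s(ρ a)` is invertible on `A_Ω`, since the polynomials `s(ρ X)` and `p(X)` have
no common root (and `p(a) = 0`); so `g = 0`, contradiction. (Without base change: the polynomial
`Q(X) = ` resultant ... ; base change with `TensorProduct` / `LinearMap.baseChange` or matrices over `Ω`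
is recommended: all hypotheses are identities between linear maps.) -/
theorem eig_zero {A B E : Type*} [AddCommGroup A] [Module K A] [FiniteDimensional K A]
    [AddCommGroup B] [Module K B] [FiniteDimensional K B] [AddCommGroup E] [Module K E]
    [FiniteDimensional K E] (a : Module.End K A) (b : Module.End K B) (t : Module.End K E)
    (T : E →ₗ[K] A →ₗ[K] B) (hT : ∀ f x, T (t f) (a x) = b (T f x)) (ha : IsUnit a)
    (p s R : K[X]) (hp : p ≠ 0) (hs : s ≠ 0) (hR : R ≠ 0) (hpa : aeval a p = 0)
    (hsb : aeval b s = 0) (hRt : aeval t R = 0)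
    (hno : ∀ r α β : AlgebraicClosure K, aeval r R = 0 → aeval α p = 0 → aeval β s = 0 →
      β ≠ r * α) : T = 0 := by
  obtain ⟨u, rfl⟩ := ha
  have hu1 : ∀ x, (u : Module.End K A) ((↑u⁻¹ : Module.End K A) x) = x := by
    intro x
    have := congrArg (fun g : Module.End K A => g x) (Units.mul_inv u)
    exact this
  have hu2 : ∀ x, (↑u⁻¹ : Module.End K A) ((u : Module.End K A) x) = x := by
    intro x
    have := congrArg (fun g : Module.End K A => g x) (Units.inv_mul u)
    exact this
  let L : Module.End K (A →ₗ[K] B) :=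
    { toFun := fun g => b ∘ₗ g
      map_add' := fun g g' => LinearMap.comp_add g g' b
      map_smul' := fun c g => LinearMap.comp_smul b c g }
  let P : Module.End K (A →ₗ[K] B) :=
    { toFun := fun g => g ∘ₗ (u : Module.End K A)
      map_add' := fun g g' => LinearMap.add_comp (u : Module.End K A) g' g
      map_smul' := fun c g => LinearMap.smul_comp c g (u : Module.End K A) }
  let C : Module.End K (A →ₗ[K] B) :=
    { toFun := fun g => (b ∘ₗ g) ∘ₗ (↑u⁻¹ : Module.End K A)
      map_add' := fun g g' => by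
        rw [LinearMap.comp_add, LinearMap.add_comp]
      map_smul' := fun c g => by
        rw [LinearMap.comp_smul, LinearMap.smul_comp]
        rfl }
  have hCa : ∀ (g : A →ₗ[K] B) x, C g x = b (g ((↑u⁻¹ : Module.End K A) x)) := fun g x => rfl
  have hLa : ∀ (g : A →ₗ[K] B) x, L g x = b (g x) := fun g x => rfl
  have hPa : ∀ (g : A →ₗ[K] B) x, P g x = g ((u : Module.End K A) x) := fun g x => rfl
  have hpP : aeval P p = 0 := by
    refine LinearMap.ext fun g => LinearMap.ext fun x => ?_
    -- precomposition is a map into the endomorphisms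
    have hq : ∀ q : K[X], aeval P q g = g ∘ₗ (aeval (u : Module.End K A) q) := by
      intro q
      have hpow : ∀ n : ℕ, (P ^ n) g = g ∘ₗ ((u : Module.End K A) ^ n) := by
        intro n
        induction n with
        | zero => rfl
        | succ n ih =>
          rw [pow_succ', Module.End.mul_apply, ih]
          refine LinearMap.ext fun y => ?_
          rw [hPa, LinearMap.comp_apply, LinearMap.comp_apply, pow_succ, Module.End.mul_apply]
      induction q using Polynomial.induction_on' with
      | add q q' h h' =>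
        rw [map_add, map_add, LinearMap.add_apply, h, h', LinearMap.comp_add]
      | monomial n c =>
        rw [aeval_monomial, aeval_monomial, Module.End.mul_apply, Module.algebraMap_end_apply,
          hpow]
        refine LinearMap.ext fun y => ?_
        rw [LinearMap.smul_apply, LinearMap.comp_apply, LinearMap.comp_apply,
          Module.End.mul_apply, Module.algebraMap_end_apply, map_smul]
    rw [hq, hpa]
    simp
  have hsL : aeval L s = 0 := by
    refine LinearMap.ext fun g => LinearMap.ext fun x => ?_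
    -- evaluation at `x`
    let ev : (A →ₗ[K] B) →ₗ[K] B :=
      { toFun := fun g => g x
        map_add' := fun g g' => rfl
        map_smul' := fun c g => rfl }
    have h := Eig_inter L b ev (fun g => rfl) s g
    rw [hsb] at h
    exact h
  have hunit : IsUnit (aeval C R) := by
    refine Eig_unit C L P ?_ ?_ ?_ ?_ p s R hpP hsL hno
    · refine LinearMap.ext fun g => LinearMap.ext fun x => ?_
      rfl
    · refine LinearMap.ext fun g => LinearMap.ext fun x => ?_
      rw [Module.End.mul_apply, Module.End.mul_apply, hCa, hPa, hPa, hCa, hu1, hu2]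
    · refine LinearMap.ext fun g => LinearMap.ext fun x => ?_
      rfl
    · refine LinearMap.ext fun g => LinearMap.ext fun x => ?_
      rw [Module.End.mul_apply, hCa, hPa, hLa, hu1]
  have hTt : ∀ f, T (t f) = C (T f) := by
    intro f
    refine LinearMap.ext fun x => ?_
    rw [hCa, ← hT f, hu1]
  have hinj := ((Module.End.isUnit_iff _).1 hunit).1
  refine LinearMap.ext fun f => ?_
  apply hinj
  rw [← Eig_inter t C T hTt R f, hRt, LinearMap.zero_apply, LinearMap.zero_apply, map_zero,
    map_zero]

/-- The same with subspaces of one space: `A₀ ≤ A₁`, `B₀ ≤ B₁` stable under the invertible operator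
`φ`, `E` a subspace of the endomorphisms stable under `f ↦ φ f φ⁻¹`.

Proof. `eig_zero` for `A = A₁ / A₀`, `B = B₁ / B₀` (quotients `(A₀.submoduleOf A₁)` etc.), `a`, `b` induced by
`φ`, `t` = conjugation by `φ` on `E`, `T f` = the map induced by `f`. -/
theorem eig_sub {V : Type*} [AddCommGroup V] [Module K V] [FiniteDimensional K V]
    (φ φ' : Module.End K V) (h1 : φ * φ' = 1) (h2 : φ' * φ = 1)
    (A₀ A₁ B₀ B₁ : Submodule K V) (hA : A₀ ≤ A₁) (hB : B₀ ≤ B₁)
    (hA₀ : ∀ x ∈ A₀, φ x ∈ A₀) (hA₁ : ∀ x ∈ A₁, φ x ∈ A₁) (hB₀ : ∀ x ∈ B₀, φ x ∈ B₀)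
    (hB₁ : ∀ x ∈ B₁, φ x ∈ B₁) (E : Submodule K (Module.End K V))
    (hE : ∀ f ∈ E, φ * f * φ' ∈ E) (hE₁ : ∀ f ∈ E, ∀ x ∈ A₁, f x ∈ B₁)
    (hE₀ : ∀ f ∈ E, ∀ x ∈ A₀, f x ∈ B₀)
    (p s R : K[X]) (hp : p ≠ 0) (hs : s ≠ 0) (hR : R ≠ 0)
    (hpa : ∀ x ∈ A₁, aeval φ p x ∈ A₀) (hsb : ∀ x ∈ B₁, aeval φ s x ∈ B₀)
    (hRt : ∀ f ∈ E, aeval (LinearMap.mulLeft K φ ∘ₗ LinearMap.mulRight K φ') R f = 0)
    (hno : ∀ r α β : AlgebraicClosure K, aeval r R = 0 → aeval α p = 0 → aeval β s = 0 →
      β ≠ r * α) : ∀ f ∈ E, ∀ x ∈ A₁, f x ∈ B₀ := by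
  have e1 : ∀ x, φ (φ' x) = x := fun x => congrArg (fun g : Module.End K V => g x) h1
  have e2 : ∀ x, φ' (φ x) = x := fun x => congrArg (fun g : Module.End K V => g x) h2
  let Aq := A₀.submoduleOf A₁
  let Bq := B₀.submoduleOf B₁
  let φA : Module.End K A₁ := φ.restrict hA₁
  let φB : Module.End K B₁ := φ.restrict hB₁
  have hφA : ∀ x ∈ Aq, φA x ∈ Aq := fun x hx => hA₀ _ hx
  have hφB : ∀ x ∈ Bq, φB x ∈ Bq := fun x hx => hB₀ _ hx
  let a : Module.End K (A₁ ⧸ Aq) := Aq.mapQ Aq φA hφA
  let b : Module.End K (B₁ ⧸ Bq) := Bq.mapQ Bq φB hφB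
  have ha0 : ∀ x, a (Submodule.Quotient.mk x) = Submodule.Quotient.mk (φA x) := fun x => rfl
  have hb0 : ∀ x, b (Submodule.Quotient.mk x) = Submodule.Quotient.mk (φB x) := fun x => rfl
  let t₀ : Module.End K (Module.End K V) := LinearMap.mulLeft K φ ∘ₗ LinearMap.mulRight K φ'
  have ht₀ : ∀ f, t₀ f = φ * f * φ' := fun f => (mul_assoc _ _ _).symm
  have hEt : ∀ f ∈ E, t₀ f ∈ E := fun f hf => by
    rw [ht₀]
    exact hE f hf
  let t : Module.End K E := t₀.restrict hEt
  let Tf : (f : E) → A₁ →ₗ[K] B₁ := fun f => f.1.restrict (fun x hx => hE₁ f.1 f.2 x hx)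
  have hTf : ∀ f : E, ∀ x ∈ Aq, Tf f x ∈ Bq := fun f x hx => hE₀ f.1 f.2 _ hx
  let T : E →ₗ[K] (A₁ ⧸ Aq) →ₗ[K] (B₁ ⧸ Bq) :=
    { toFun := fun f => Aq.mapQ Bq (Tf f) (hTf f)
      map_add' := fun f f' => by
        refine LinearMap.ext fun x => ?_
        obtain ⟨x, rfl⟩ := Submodule.Quotient.mk_surjective _ x
        rfl
      map_smul' := fun c f => by
        refine LinearMap.ext fun x => ?_
        obtain ⟨x, rfl⟩ := Submodule.Quotient.mk_surjective _ x
        rfl }
  have hT0 : ∀ f x, T f (Submodule.Quotient.mk x) = Submodule.Quotient.mk (Tf f x) :=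
    fun f x => rfl
  have hT : ∀ f x, T (t f) (a x) = b (T f x) := by
    intro f x
    obtain ⟨x, rfl⟩ := Submodule.Quotient.mk_surjective _ x
    rw [ha0, hT0, hT0, hb0]
    congr 1
    apply Subtype.ext
    show (φ * (f : Module.End K V) * φ') (φ (x : V)) = φ ((f : Module.End K V) x)
    rw [Module.End.mul_apply, Module.End.mul_apply, e2]
  have hau : IsUnit a := by
    have hinj : Function.Injective φA := by
      intro x y hxy
      apply Subtype.ext
      have h3 : φ (x : V) = φ (y : V) := congrArg Subtype.val hxy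
      rw [← e2 (x : V), h3, e2]
    have hsurj : Function.Surjective φA := LinearMap.surjective_of_injective hinj
    rw [Module.End.isUnit_iff]
    have hs2 : Function.Surjective a := by
      intro y
      obtain ⟨y, rfl⟩ := Submodule.Quotient.mk_surjective _ y
      obtain ⟨x, rfl⟩ := hsurj y
      exact ⟨Submodule.Quotient.mk x, rfl⟩
    exact ⟨LinearMap.injective_iff_surjective.2 hs2, hs2⟩
  have hpa' : aeval a p = 0 := by
    refine LinearMap.ext fun x => ?_
    obtain ⟨x, rfl⟩ := Submodule.Quotient.mk_surjective _ x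
    have h3 := Eig_inter φA a Aq.mkQ (fun x => rfl) p x
    have h4 := Eig_inter φA φ A₁.subtype (fun x => rfl) p x
    have h5 : aeval φA p x ∈ Aq := by
      show ((aeval φA p x : A₁) : V) ∈ A₀
      have h6 : ((aeval φA p x : A₁) : V) = aeval φ p (x : V) := h4
      rw [h6]
      exact hpa x x.2
    show aeval a p (Aq.mkQ x) = 0
    rw [← h3]
    exact (Submodule.Quotient.mk_eq_zero _).2 h5
  have hsb' : aeval b s = 0 := by
    refine LinearMap.ext fun x => ?_
    obtain ⟨x, rfl⟩ := Submodule.Quotient.mk_surjective _ x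
    have h3 := Eig_inter φB b Bq.mkQ (fun x => rfl) s x
    have h4 := Eig_inter φB φ B₁.subtype (fun x => rfl) s x
    have h5 : aeval φB s x ∈ Bq := by
      show ((aeval φB s x : B₁) : V) ∈ B₀
      have h6 : ((aeval φB s x : B₁) : V) = aeval φ s (x : V) := h4
      rw [h6]
      exact hsb x x.2
    show aeval b s (Bq.mkQ x) = 0
    rw [← h3]
    exact (Submodule.Quotient.mk_eq_zero _).2 h5
  have hRt' : aeval t R = 0 := by
    refine LinearMap.ext fun f => ?_
    have h3 := Eig_inter t t₀ E.subtype (fun x => rfl) R f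
    apply Subtype.ext
    show E.subtype (aeval t R f) = 0
    rw [h3]
    exact hRt f f.2
  have hTz := eig_zero a b t T hT hau p s R hp hs hR hpa' hsb' hRt' hno
  intro f hf x hx
  have h3 : T ⟨f, hf⟩ (Submodule.Quotient.mk ⟨x, hx⟩) = 0 := by
    rw [hTz]
    rfl
  rw [hT0] at h3
  have h4 : Tf ⟨f, hf⟩ ⟨x, hx⟩ ∈ Bq := (Submodule.Quotient.mk_eq_zero _).1 h3
  exact h4

end Pool.Agent.T10D
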