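import Pool.Agent.W_b4801b_t10d.Defs

/-! A criterion for semisimplicity relative to a normal subgroup. -/

set_option autoImplicit false

noncomputable section

namespace Pool.Agent.T10D

open Pool.Agent.B4801b

variable {K : Type*} [Field K] {V : Type*} [AddCommGroup V] [Module K V] [FiniteDimensional K V]
  {G : Type*} [Group G]

/-- Let `N` be normal in `G`, `V|N` semisimple, and suppose that every `D`-stable subspace of
`endN ρ N` has a `D`-stable complement in `endN ρ N`. Then every `G`-stable subspace `W` of `V` has a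
complement which is stable under `D` and `N`.

Proof. Let `π₀ : V → W` be a projection which commutes with `N` (`W` has an `N`-stable complement). Let
`H = {f ∈ endN | im f ⊆ W, f|W = 0}` and `Q = {f ∈ endN | im f ⊆ W, f|W is a scalar}`. Both are stable
under conjugation by `D` (`W` is `G`-stable), and `Q = H ⊕ K π₀`. `H` has a `D`-stable complement `C` in
`endN ρ N`; then `C ⊓ Q` is a `D`-stable complement of `H` in `Q` (modular law), so it is a line `K e`, and
`e|W = c` with `c ≠ 0` if `W ≠ 0`. For `d ∈ D`, `d e d⁻¹ = λ e`, and the restrictions to `W` are `c` and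
`λ c`, so `λ = 1`: `π = c⁻¹ e` is a projection onto `W` which commutes with `N` and `D`; take its kernel.
(`W = 0`: take `V`.) -/
theorem exists_compl_DN (ρ : Representation K G V) (N D : Subgroup G) (hN : N.Normal)
    (hss : SemisimpleOn ρ N)
    (hE : ∀ H : Submodule K (Module.End K V), H ≤ endN ρ N →
      (∀ σ ∈ D, ∀ f ∈ H, adRep ρ σ f ∈ H) →
      ∃ C : Submodule K (Module.End K V), (∀ σ ∈ D, ∀ f ∈ C, adRep ρ σ f ∈ C) ∧
        H ⊓ C = ⊥ ∧ H ⊔ C = endN ρ N)
    (W : Submodule K V) (hW : ∀ (σ : G), ∀ x ∈ W, ρ σ x ∈ W) :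
    ∃ W' : Submodule K V, StableUnder ρ D W' ∧ StableUnder ρ N W' ∧ IsCompl W W' := by
  have had : ∀ (σ : G) (f : Module.End K V) (x : V), adRep ρ σ f x = ρ σ (f (ρ σ⁻¹ x)) := by
    intro σ f x
    rfl
  have hinv : ∀ (σ : G) (x : V), ρ σ⁻¹ (ρ σ x) = x := by
    intro σ x
    rw [← Module.End.mul_apply, ← map_mul, inv_mul_cancel, map_one, Module.End.one_apply]
  have hinv' : ∀ (σ : G) (x : V), ρ σ (ρ σ⁻¹ x) = x := by
    intro σ x
    rw [← Module.End.mul_apply, ← map_mul, mul_inv_cancel, map_one, Module.End.one_apply]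
  -- conjugation preserves `endN`
  have hconj : ∀ (σ : G) (f : Module.End K V), f ∈ endN ρ N → adRep ρ σ f ∈ endN ρ N := by
    intro σ f hf τ hτ x
    rw [had, had]
    have h1 : ρ σ⁻¹ (ρ τ x) = ρ (σ⁻¹ * τ * σ) (ρ σ⁻¹ x) := by
      rw [← Module.End.mul_apply, ← Module.End.mul_apply, ← map_mul, ← map_mul]
      congr 2
      group
    have h2 : σ⁻¹ * τ * σ ∈ N := by
      have := hN.conj_mem τ hτ σ⁻¹
      simpa using this
    rw [h1, hf _ h2, ← Module.End.mul_apply, ← map_mul, ← Module.End.mul_apply (ρ τ), ← map_mul]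
    congr 2
    group
  -- a projection which commutes with `N`
  obtain ⟨W₀, hW₀, hc⟩ := hss W (fun σ _ x hx => hW σ x hx)
  set π₀ : Module.End K V := W.subtype ∘ₗ W.projectionOnto W₀ hc with hπ₀
  have hπW : ∀ x, π₀ x ∈ W := fun x => (W.projectionOnto W₀ hc x).2
  have hπid : ∀ x ∈ W, π₀ x = x := by
    intro x hx
    have := Submodule.projectionOnto_apply_left hc ⟨x, hx⟩
    show W.subtype (W.projectionOnto W₀ hc x) = x
    rw [show W.projectionOnto W₀ hc x = ⟨x, hx⟩ from this]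
    rfl
  have hπker : ∀ x ∈ W₀, π₀ x = 0 := by
    intro x hx
    have := Submodule.projectionOnto_apply_right hc ⟨x, hx⟩
    show W.subtype (W.projectionOnto W₀ hc x) = 0
    rw [show W.projectionOnto W₀ hc x = 0 from this, map_zero]
  have hπN : π₀ ∈ endN ρ N := by
    intro σ hσ x
    obtain ⟨y, hy, z, hz, rfl⟩ := Submodule.mem_sup.1 (hc.sup_eq_top ▸ Submodule.mem_top (x := x))
    rw [map_add, map_add, map_add, map_add, hπid y hy, hπker z hz,
      hπid _ (hW σ y hy), hπker _ (hW₀ σ hσ z hz), map_zero]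
  -- the space `H`
  let H : Submodule K (Module.End K V) :=
    { carrier := {f | f ∈ endN ρ N ∧ (∀ x, f x ∈ W) ∧ ∀ x ∈ W, f x = 0}
      add_mem' := by
        rintro f g ⟨hf, hf1, hf2⟩ ⟨hg, hg1, hg2⟩
        exact ⟨add_mem hf hg, fun x => W.add_mem (hf1 x) (hg1 x), fun x hx => by
          rw [LinearMap.add_apply, hf2 x hx, hg2 x hx, add_zero]⟩
      zero_mem' := ⟨zero_mem _, fun x => W.zero_mem, fun x _ => rfl⟩
      smul_mem' := by
        rintro c f ⟨hf, hf1, hf2⟩
        exact ⟨Submodule.smul_mem _ c hf, fun x => W.smul_mem c (hf1 x), fun x hx => by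
          rw [LinearMap.smul_apply, hf2 x hx, smul_zero]⟩ }
  have hHdef : ∀ f, f ∈ H ↔ f ∈ endN ρ N ∧ (∀ x, f x ∈ W) ∧ ∀ x ∈ W, f x = 0 := fun f => Iff.rfl
  obtain ⟨C, hCD, hHC, hHCE⟩ := hE H (fun f hf => hf.1) (by
    intro σ _ f hf
    rw [hHdef] at hf ⊢
    refine ⟨hconj σ f hf.1, fun x => ?_, fun x hx => ?_⟩
    · rw [had]
      exact hW σ _ (hf.2.1 _)
    · rw [had, hf.2.2 _ (hW σ⁻¹ x hx), map_zero])
  rw [← hHCE] at hπN
  obtain ⟨h, hh, e, he, hhe⟩ := Submodule.mem_sup.1 hπN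
  rw [hHdef] at hh
  have hex : ∀ x, e x = π₀ x - h x := by
    intro x
    rw [← hhe, LinearMap.add_apply, add_sub_cancel_left]
  have heW : ∀ x, e x ∈ W := fun x => by
    rw [hex]
    exact W.sub_mem (hπW x) (hh.2.1 x)
  have heid : ∀ x ∈ W, e x = x := fun x hx => by
    rw [hex, hπid x hx, hh.2.2 x hx, sub_zero]
  have heN : e ∈ endN ρ N := by
    rw [← hHCE]
    exact (le_sup_right : C ≤ H ⊔ C) he
  have heD : ∀ σ ∈ D, adRep ρ σ e = e := by
    intro σ hσ
    have h1 : adRep ρ σ e - e ∈ H := by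
      rw [hHdef]
      refine ⟨sub_mem (hconj σ e heN) heN, fun x => ?_, fun x hx => ?_⟩
      · rw [LinearMap.sub_apply, had]
        exact W.sub_mem (hW σ _ (heW _)) (heW x)
      · rw [LinearMap.sub_apply, had, heid _ (hW σ⁻¹ x hx), hinv', heid x hx, sub_self]
    have h2 : adRep ρ σ e - e ∈ C := C.sub_mem (hCD σ hσ e he) he
    have h3 : adRep ρ σ e - e ∈ H ⊓ C := ⟨h1, h2⟩
    rw [hHC, Submodule.mem_bot] at h3
    exact sub_eq_zero.1 h3
  refine ⟨LinearMap.ker e, ?_, ?_, ?_⟩
  · intro σ hσ x hx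
    rw [LinearMap.mem_ker] at hx ⊢
    have h1 := congrArg (fun f : Module.End K V => f (ρ σ x)) (heD σ hσ)
    simp only [had, hinv, hx, map_zero] at h1
    exact h1.symm
  · intro σ hσ x hx
    rw [LinearMap.mem_ker] at hx ⊢
    rw [heN σ hσ x, hx, map_zero]
  · refine IsCompl.of_eq ?_ ?_
    · rw [eq_bot_iff]
      rintro x ⟨hx1, hx2⟩
      have hx3 : e x = 0 := hx2
      rw [heid x hx1] at hx3
      rw [hx3]
      exact Submodule.zero_mem _
    · rw [eq_top_iff]
      intro x _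
      refine Submodule.mem_sup.2 ⟨e x, heW x, x - e x, ?_, by abel⟩
      rw [LinearMap.mem_ker, map_sub, heid _ (heW x), sub_self]

end Pool.Agent.T10D
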