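import Pool.Agent.W_b4801b_t10d.Defs

/-! The graded representation. -/

set_option autoImplicit false

noncomputable section

universe u v

namespace Pool.Agent.T10D

open Pool.Agent.B4801b

section generic

variable {K : Type*} [Field K] {V : Type v} [AddCommGroup V] [Module K V] {G : Type u} [Group G]

/-- The map induced on `B / A`. -/
def Gr_map (A B : Submodule K V) (f : Module.End K V) (hA : ∀ x ∈ A, f x ∈ A)
    (hB : ∀ x ∈ B, f x ∈ B) : Module.End K (↥B ⧸ A.submoduleOf B) :=
  Submodule.mapQ _ _ (f.restrict hB) (fun x hx => hA _ hx)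

theorem Gr_map_mk (A B : Submodule K V) (f : Module.End K V) (hA : ∀ x ∈ A, f x ∈ A)
    (hB : ∀ x ∈ B, f x ∈ B) (x : B) :
    Gr_map A B f hA hB (Submodule.Quotient.mk x) = Submodule.Quotient.mk ⟨f x, hB x x.2⟩ := rfl

/-- The representation on `B / A`. -/
def Gr_rep (ρ : Representation K G V) (D : Subgroup G) (A B : Submodule K V)
    (hA : StableUnder ρ D A) (hB : StableUnder ρ D B) :
    Representation K D (↥B ⧸ A.submoduleOf B) where
  toFun σ := Gr_map A B (ρ σ) (hA σ σ.2) (hB σ σ.2)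
  map_one' := by
    refine LinearMap.ext fun x => ?_
    induction x using Submodule.Quotient.induction_on with
    | H x =>
      rw [Gr_map_mk]
      congr 1
      apply Subtype.ext
      change ρ ((1 : D) : G) (x : V) = x
      rw [Subgroup.coe_one, map_one]
      rfl
  map_mul' σ τ := by
    refine LinearMap.ext fun x => ?_
    induction x using Submodule.Quotient.induction_on with
    | H x =>
      rw [Module.End.mul_apply, Gr_map_mk, Gr_map_mk, Gr_map_mk]
      congr 1
      apply Subtype.ext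
      change ρ ((σ * τ : D) : G) (x : V) = ρ σ (ρ τ x)
      rw [Subgroup.coe_mul, map_mul]
      rfl

theorem Gr_rep_mk (ρ : Representation K G V) (D : Subgroup G) (A B : Submodule K V)
    (hA : StableUnder ρ D A) (hB : StableUnder ρ D B) (σ : D) (x : B) :
    Gr_rep ρ D A B hA hB σ (Submodule.Quotient.mk x) =
      Submodule.Quotient.mk ⟨ρ σ x, hB σ σ.2 x x.2⟩ := rfl

theorem Gr_cont [TopologicalSpace K] [TopologicalSpace G] (ρ : Representation K G V)
    (hc : IsContinuousRep ρ) (D : Subgroup G) (A B : Submodule K V)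
    (hA : StableUnder ρ D A) (hB : StableUnder ρ D B) :
    IsContinuousRep (Gr_rep ρ D A B hA hB) := by
  intro f x
  induction x using Submodule.Quotient.induction_on with
  | H x =>
    obtain ⟨g, hg⟩ := LinearMap.exists_extend (f ∘ₗ (A.submoduleOf B).mkQ)
    have h1 : (fun σ : D => f (Gr_rep ρ D A B hA hB σ (Submodule.Quotient.mk x))) =
        (fun σ : G => g (ρ σ (x : V))) ∘ (fun σ : D => (σ : G)) := by
      funext σ
      rw [Gr_rep_mk]
      have h2 := congrArg (fun h => h ⟨ρ σ x, hB σ σ.2 x x.2⟩) hg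
      exact h2.symm
    rw [h1]
    exact (hc g x).comp continuous_subtype_val

theorem Gr_ss (ρ : Representation K G V) (D : Subgroup G) (A B : Submodule K V) (hAB : A ≤ B)
    (hA : StableUnder ρ D A) (hB : StableUnder ρ D B) (h : SemisimpleBetween ρ D A B) :
    IsSemisimpleRep (Gr_rep ρ D A B hA hB) := by
  intro W hW
  let q : B →ₗ[K] (↥B ⧸ A.submoduleOf B) := (A.submoduleOf B).mkQ
  have hq : Function.Surjective q := Submodule.mkQ_surjective _
  have hqσ : ∀ (σ : D) (x : B), Gr_rep ρ D A B hA hB σ (q x) = q ⟨ρ σ x, hB σ σ.2 x x.2⟩ :=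
    fun σ x => rfl
  have hq0 : ∀ x : B, q x = 0 ↔ (x : V) ∈ A := by
    intro x
    change Submodule.Quotient.mk x = 0 ↔ _
    rw [Submodule.Quotient.mk_eq_zero]
    rfl
  obtain ⟨U', hU'1, hU'2, hU'3⟩ := h ((W.comap q).map B.subtype) (by
      rintro σ hσ _ ⟨x, hx, rfl⟩
      refine ⟨⟨ρ σ x, hB σ hσ x x.2⟩, ?_, rfl⟩
      change q _ ∈ W
      have := hW ⟨σ, hσ⟩ (q x) hx
      rwa [hqσ] at this) (by
      intro x hx
      refine ⟨⟨x, hAB hx⟩, ?_, rfl⟩
      change q _ ∈ W
      rw [(hq0 _).2 hx]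
      exact zero_mem W) (by
      rintro _ ⟨x, _, rfl⟩
      exact x.2)
  have hU'B : U' ≤ B := by
    rw [← hU'3]
    exact le_sup_right
  have hU'A : A ≤ U' := by
    rw [← hU'2]
    exact inf_le_right
  refine ⟨(U'.comap B.subtype).map q, ?_, ?_⟩
  · rintro σ _ ⟨x, hx, rfl⟩
    rw [hqσ]
    exact ⟨⟨ρ σ x, hB σ σ.2 x x.2⟩, hU'1 σ σ.2 _ hx, rfl⟩
  · rw [isCompl_iff, disjoint_iff, codisjoint_iff]
    constructor
    · rw [eq_bot_iff]
      rintro _ ⟨hy1, ⟨x, hx, rfl⟩⟩
      have h1 : (x : V) ∈ ((W.comap q).map B.subtype) ⊓ U' := ⟨⟨x, hy1, rfl⟩, hx⟩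
      rw [hU'2] at h1
      rw [Submodule.mem_bot]
      exact (hq0 x).2 h1
    · rw [eq_top_iff]
      intro y _
      obtain ⟨x, rfl⟩ := hq y
      have h1 : (x : V) ∈ ((W.comap q).map B.subtype) ⊔ U' := by
        rw [hU'3]
        exact x.2
      obtain ⟨_, ⟨y, hy, rfl⟩, z, hz, hyz⟩ := Submodule.mem_sup.1 h1
      have h2 : x = y + ⟨z, hU'B hz⟩ := by
        apply Subtype.ext
        exact hyz.symm
      rw [h2, map_add]
      exact Submodule.add_mem_sup hy ⟨⟨z, hU'B hz⟩, hz, rfl⟩

end generic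

section product

variable {K : Type*} [Field K] {D : Type*} [Group D] {M Q : Type*} [AddCommGroup M] [Module K M]
  [AddCommGroup Q] [Module K Q]

theorem Gr_prod_cont [TopologicalSpace K] [IsTopologicalRing K] [TopologicalSpace D]
    (τ : Representation K D M) (κ : Representation K D Q) (h1 : IsContinuousRep τ)
    (h2 : IsContinuousRep κ) : IsContinuousRep (τ.prod κ) := by
  rintro f ⟨x, y⟩
  have h3 : (fun σ : D => f ((τ.prod κ) σ (x, y))) =
      fun σ : D => (f ∘ₗ LinearMap.inl K M Q) (τ σ x) + (f ∘ₗ LinearMap.inr K M Q) (κ σ y) := by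
    funext σ
    rw [LinearMap.comp_apply, LinearMap.comp_apply, ← map_add]
    congr 1
    apply Prod.ext
    · change τ σ x = τ σ x + 0
      rw [add_zero]
    · change κ σ y = 0 + κ σ y
      rw [zero_add]
  rw [h3]
  exact (h1 _ x).add (h2 _ y)

theorem Gr_prod_ss (τ : Representation K D M) (κ : Representation K D Q) (h1 : IsSemisimpleRep τ)
    (h2 : IsSemisimpleRep κ) : IsSemisimpleRep (τ.prod κ) := by
  intro W hW
  have hstab : ∀ (σ : D) (x : M) (y : Q), (τ.prod κ) σ (x, y) = (τ σ x, κ σ y) := fun _ _ _ => rfl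
  obtain ⟨C, hC, hCc⟩ := h1 (W.comap (LinearMap.inl K M Q)) (by
    intro σ x hx
    change (τ σ x, (0 : Q)) ∈ W
    have h3 := hW σ (x, 0) hx
    rwa [hstab, map_zero] at h3)
  obtain ⟨C₂, hC₂, hC₂c⟩ := h2 (W.map (LinearMap.snd K M Q)) (by
    rintro σ _ ⟨⟨x, y⟩, hx, rfl⟩
    exact ⟨(τ σ x, κ σ y), hW σ (x, y) hx, rfl⟩)
  rw [isCompl_iff, disjoint_iff, codisjoint_iff] at hCc hC₂c
  refine ⟨C.prod C₂, ?_, ?_⟩
  · rintro σ ⟨x, y⟩ ⟨hx, hy⟩
    exact ⟨hC σ x hx, hC₂ σ y hy⟩
  · rw [isCompl_iff, disjoint_iff, codisjoint_iff]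
    constructor
    · rw [eq_bot_iff]
      rintro ⟨x, y⟩ ⟨hW', hx, hy⟩
      have hy0 : y = 0 := by
        have h3 : y ∈ W.map (LinearMap.snd K M Q) ⊓ C₂ := ⟨⟨(x, y), hW', rfl⟩, hy⟩
        rw [hC₂c.1] at h3
        exact h3
      subst hy0
      have hx0 : x = 0 := by
        have h3 : x ∈ W.comap (LinearMap.inl K M Q) ⊓ C := ⟨hW', hx⟩
        rw [hCc.1] at h3
        exact h3
      subst hx0
      rfl
    · rw [eq_top_iff]
      rintro ⟨x, y⟩ _
      have h3 : y ∈ W.map (LinearMap.snd K M Q) ⊔ C₂ := by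
        rw [hC₂c.2]
        exact Submodule.mem_top
      obtain ⟨_, ⟨⟨a, b⟩, hab, rfl⟩, z, hz, hyz⟩ := Submodule.mem_sup.1 h3
      have h4 : x - a ∈ W.comap (LinearMap.inl K M Q) ⊔ C := by
        rw [hCc.2]
        exact Submodule.mem_top
      obtain ⟨c, hc, d, hd, hcd⟩ := Submodule.mem_sup.1 h4
      have h5 : (x, y) = ((a, b) + (c, 0)) + (d, z) := by
        apply Prod.ext
        · change x = a + c + d
          rw [add_assoc, hcd]
          abel
        · change y = b + 0 + z
          rw [add_zero]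
          exact hyz.symm
      rw [h5]
      exact Submodule.add_mem_sup (W.add_mem hab hc) ⟨hd, hz⟩

end product

theorem Gr_ind (ℓ : ℕ) [Fact ℓ.Prime] {G : Type u} [Group G] [TopologicalSpace G]
    {V : Type v} [AddCommGroup V] [Module ℚ_[ℓ] V]
    [FiniteDimensional ℚ_[ℓ] V] (ρ : Representation ℚ_[ℓ] G V) (hc : IsContinuousRep ρ)
    (D : Subgroup G) (F : ℕ → Submodule ℚ_[ℓ] V) (hmono : Monotone F)
    (hFD : ∀ j, StableUnder ρ D (F j)) (m : ℕ)
    (hgr : ∀ j, j < m → SemisimpleBetween ρ D (F j) (F (j + 1))) :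
    ∃ (M : Type v) (_ : AddCommGroup M) (_ : Module ℚ_[ℓ] M) (_ : FiniteDimensional ℚ_[ℓ] M)
      (τ : Representation ℚ_[ℓ] D M), IsContinuousRep τ ∧ IsSemisimpleRep τ ∧
      ∀ (E : Submodule ℚ_[ℓ] (Module.End ℚ_[ℓ] V)),
        (∀ f ∈ E, ∀ j, j ≤ m → ∀ x ∈ F j, f x ∈ F j) →
        ∃ J : E →ₗ[ℚ_[ℓ]] Module.End ℚ_[ℓ] M,
          (∀ f : E, J f = 0 → ∀ j, j < m → ∀ x ∈ F (j + 1), (f : Module.End ℚ_[ℓ] V) x ∈ F j) ∧
          ∀ (σ : D) (f g : E), (g : Module.End ℚ_[ℓ] V) = adRep ρ σ f → J g = adRep τ σ (J f) := by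
  induction m with
  | zero =>
    refine ⟨PUnit.{v + 1}, inferInstance, inferInstance, inferInstance, 1, ?_, ?_, ?_⟩
    · intro f x
      have : (fun σ : D => f ((1 : Representation ℚ_[ℓ] D PUnit.{v + 1}) σ x)) = fun _ => f x := rfl
      rw [this]
      exact continuous_const
    · intro W _
      refine ⟨⊤, fun _ _ _ => Submodule.mem_top, ?_⟩
      have hW : W = ⊥ := by
        rw [eq_bot_iff]
        intro x _
        exact Submodule.mem_bot _ |>.2 (Subsingleton.elim _ _)
      rw [hW]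
      exact isCompl_bot_top
    · intro E _
      refine ⟨0, fun _ _ j hj => absurd hj (by omega), ?_⟩
      intro σ f g _
      exact LinearMap.ext fun x => Subsingleton.elim _ _
  | succ m ih =>
    obtain ⟨M, i1, i2, i3, τ, hτc, hτs, hτE⟩ := ih (fun j hj => hgr j (by omega))
    let κ := Gr_rep ρ D (F m) (F (m + 1)) (hFD m) (hFD (m + 1))
    have hκc : IsContinuousRep κ := Gr_cont ρ hc D _ _ _ _
    have hκs : IsSemisimpleRep κ := Gr_ss ρ D _ _ (hmono (by omega)) _ _ (hgr m (by omega))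
    refine ⟨M × (↥(F (m + 1)) ⧸ (F m).submoduleOf (F (m + 1))), inferInstance, inferInstance,
      inferInstance, τ.prod κ, Gr_prod_cont τ κ hτc hκc, Gr_prod_ss τ κ hτs hκs, ?_⟩
    intro E hE
    obtain ⟨J, hJ1, hJ2⟩ := hτE E (fun f hf j hj => hE f hf j (by omega))
    let L : E →ₗ[ℚ_[ℓ]] Module.End ℚ_[ℓ] (↥(F (m + 1)) ⧸ (F m).submoduleOf (F (m + 1))) :=
      { toFun := fun f => Gr_map (F m) (F (m + 1)) f (hE f f.2 m (by omega))
          (hE f f.2 (m + 1) le_rfl)
        map_add' := by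
          intro f g
          refine LinearMap.ext fun x => ?_
          induction x using Submodule.Quotient.induction_on with
          | H x => rfl
        map_smul' := by
          intro c f
          refine LinearMap.ext fun x => ?_
          induction x using Submodule.Quotient.induction_on with
          | H x => rfl }
    have hL : ∀ (f : E) (x : F (m + 1)), L f (Submodule.Quotient.mk x) =
        Submodule.Quotient.mk ⟨(f : Module.End ℚ_[ℓ] V) x, hE f f.2 (m + 1) le_rfl x x.2⟩ :=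
      fun f x => rfl
    let J' : E →ₗ[ℚ_[ℓ]] Module.End ℚ_[ℓ] (M × (↥(F (m + 1)) ⧸ (F m).submoduleOf (F (m + 1)))) :=
      { toFun := fun f => (J f).prodMap (L f)
        map_add' := by
          intro f g
          refine LinearMap.ext fun x => ?_
          rw [map_add, map_add]
          rfl
        map_smul' := by
          intro c f
          refine LinearMap.ext fun x => ?_
          rw [map_smul, map_smul]
          rfl }
    have hJ' : ∀ f x y, J' f (x, y) = (J f x, L f y) := fun _ _ _ => rfl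
    refine ⟨J', ?_, ?_⟩
    · intro f hf j hj x hx
      by_cases hjm : j < m
      · refine hJ1 f ?_ j hjm x hx
        refine LinearMap.ext fun y => ?_
        have h1 := congrArg (fun g => (g (y, 0)).1) hf
        exact h1
      · have hjm' : j = m := by omega
        subst hjm'
        have h1 := congrArg (fun g => (g (0, Submodule.Quotient.mk ⟨x, hx⟩)).2) hf
        have h2 : L f (Submodule.Quotient.mk ⟨x, hx⟩) = 0 := h1
        rw [hL, Submodule.Quotient.mk_eq_zero] at h2
        exact h2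
    · intro σ f g hfg
      refine LinearMap.ext ?_
      rintro ⟨x, y⟩
      have h1 := hJ2 σ f g hfg
      apply Prod.ext
      · change J g x = _
        rw [h1]
        rfl
      · change L g y = κ σ (L f (κ σ⁻¹ y))
        induction y using Submodule.Quotient.induction_on with
        | H y =>
          have e1 : κ σ⁻¹ (Submodule.Quotient.mk y) = Submodule.Quotient.mk
              ⟨ρ ((σ⁻¹ : D) : G) y, hFD (m + 1) _ (σ⁻¹ : D).2 y y.2⟩ := rfl
          have e2 : ∀ z : F (m + 1), κ σ (Submodule.Quotient.mk z) = Submodule.Quotient.mk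
              ⟨ρ (σ : G) z, hFD (m + 1) _ σ.2 z z.2⟩ := fun _ => rfl
          rw [e1, hL, hL, e2]
          congr 1
          apply Subtype.ext
          change (g : Module.End ℚ_[ℓ] V) y = _
          rw [hfg]
          rfl

/-- The graded representation `M = ∏ F (j + 1) / F j` of `D`: it is continuous and semisimple, and every
space `E` of endomorphisms of `V` which preserve the filtration, stable under conjugation by `D`, and
which are zero if they are zero on the graded pieces, embeds equivariantly in `End(M)`.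

Proof. `M = (j : Fin m) → (F (j + 1)) ⧸ (F j).submoduleOf (F (j + 1))` with the componentwise action
induced by `ρ` (`Submodule.mapQ`, `LinearMap.restrict`). Continuity: matrix coefficients of subquotients are matrix
coefficients of `V` (a functional on the quotient pulls back to `F (j + 1)` and extends to `V`).
Semisimplicity of each factor is `hgr` (transport subspaces of the quotient to
subspaces between `F j` and `F (j + 1)`), and finite products of semisimple representations are
semisimple (induction, or directly by the argument of `prod_semisimple`: filter by the first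
coordinates). `J f` = the componentwise maps induced by `f`. -/
theorem exists_gr (ℓ : ℕ) [Fact ℓ.Prime] {G : Type u} [Group G] [TopologicalSpace G]
    [IsTopologicalGroup G] {V : Type v} [AddCommGroup V] [Module ℚ_[ℓ] V]
    [FiniteDimensional ℚ_[ℓ] V] (ρ : Representation ℚ_[ℓ] G V) (hc : IsContinuousRep ρ)
    (D : Subgroup G) (m : ℕ) (F : ℕ → Submodule ℚ_[ℓ] V) (hmono : Monotone F)
    (hFD : ∀ j, StableUnder ρ D (F j))
    (hgr : ∀ j, j < m → SemisimpleBetween ρ D (F j) (F (j + 1))) :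
    ∃ (M : Type v) (_ : AddCommGroup M) (_ : Module ℚ_[ℓ] M) (_ : FiniteDimensional ℚ_[ℓ] M)
      (τ : Representation ℚ_[ℓ] D M), IsContinuousRep τ ∧ IsSemisimpleRep τ ∧
      ∀ (E : Submodule ℚ_[ℓ] (Module.End ℚ_[ℓ] V)),
        (∀ f ∈ E, ∀ j, j ≤ m → ∀ x ∈ F j, f x ∈ F j) →
        (∀ f ∈ E, (∀ j, j < m → ∀ x ∈ F (j + 1), f x ∈ F j) → f = 0) →
        (∀ σ ∈ D, ∀ f ∈ E, adRep ρ σ f ∈ E) →
        ∃ J : E →ₗ[ℚ_[ℓ]] Module.End ℚ_[ℓ] M, Function.Injective J ∧
          ∀ (σ : D) (f g : E), (g : Module.End ℚ_[ℓ] V) = adRep ρ σ f → J g = adRep τ σ (J f) := by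
  obtain ⟨M, i1, i2, i3, τ, hτc, hτs, hτE⟩ := Gr_ind ℓ ρ hc D F hmono hFD m hgr
  refine ⟨M, i1, i2, i3, τ, hτc, hτs, ?_⟩
  intro E hE1 hE2 _
  obtain ⟨J, hJ1, hJ2⟩ := hτE E hE1
  refine ⟨J, ?_, hJ2⟩
  rw [injective_iff_map_eq_zero]
  intro f hf
  apply Subtype.ext
  exact hE2 f f.2 (hJ1 f hf)

end Pool.Agent.T10D
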