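import Pool.Agent.W_b4801b_t10d.Wt
import Pool.Agent.W_b4801b_t10d.Fix
import Pool.Agent.W_b4801b_t10d.Chev
import Pool.Agent.W_b4801b_t10d.Gr
import Pool.Agent.W_MP_b4801b_h67.Avg

/-! Semisimplicity from one degenerate fibre. -/

set_option autoImplicit false

noncomputable section

open Polynomial

universe u v

namespace Pool.Agent.T10D

open Pool.Agent.B4801b

/-- Proof. `J` embeds `E` in `End(M)`, which is semisimple: complement of `J(H)` and the modular law. -/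
theorem sub_semisimple {K : Type*} [Field K] {D : Type*} [Group D] {E M : Type*} [AddCommGroup E]
    [Module K E] [AddCommGroup M] [Module K M] (α : Representation K D E) (β : Representation K D M)
    (J : E →ₗ[K] M) (hJ : Function.Injective J) (hJD : ∀ σ f, J (α σ f) = β σ (J f))
    (h : IsSemisimpleRep β) : IsSemisimpleRep α := by
  intro W hW
  obtain ⟨C, hC, hc⟩ := h (W.map J) (by
    rintro σ _ ⟨x, hx, rfl⟩
    exact ⟨α σ x, hW σ x hx, hJD σ x⟩)
  rw [isCompl_iff, disjoint_iff, codisjoint_iff] at hc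
  refine ⟨C.comap J, ?_, ?_⟩
  · intro σ x hx
    change J (α σ x) ∈ C
    rw [hJD]
    exact hC σ _ hx
  · rw [isCompl_iff, disjoint_iff, codisjoint_iff]
    constructor
    · rw [eq_bot_iff]
      rintro x ⟨hx1, hx2⟩
      have h3 : J x ∈ W.map J ⊓ C := ⟨⟨x, hx1, rfl⟩, hx2⟩
      rw [hc.1, Submodule.mem_bot] at h3
      rw [Submodule.mem_bot]
      exact hJ (h3.trans (map_zero J).symm)
    · rw [eq_top_iff]
      intro x _
      have h3 : J x ∈ W.map J ⊔ C := by
        rw [hc.2]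
        exact Submodule.mem_top
      obtain ⟨_, ⟨w, hw, rfl⟩, c, hcC, hwc⟩ := Submodule.mem_sup.1 h3
      have h4 : x = w + (x - w) := by abel
      rw [h4]
      refine Submodule.add_mem_sup hw ?_
      change J (x - w) ∈ C
      rw [map_sub, ← hwc, add_sub_cancel_left]
      exact hcC

theorem Final_ad_apply {K : Type*} [Field K] {V : Type*} [AddCommGroup V] [Module K V] {G : Type*}
    [Group G] (ρ : Representation K G V) (σ : G) (f : Module.End K V) (x : V) :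
    adRep ρ σ f x = ρ σ (f (ρ σ⁻¹ x)) := rfl

theorem Final_endN_stable {K : Type*} [Field K] {V : Type*} [AddCommGroup V] [Module K V]
    {G : Type*} [Group G] (ρ : Representation K G V) (N : Subgroup G) (hN : N.Normal) (g : G)
    (f : Module.End K V) (hf : f ∈ endN ρ N) : adRep ρ g f ∈ endN ρ N := by
  intro σ hσ x
  rw [Final_ad_apply, Final_ad_apply]
  have h1 : ρ g⁻¹ (ρ σ x) = ρ (g⁻¹ * σ * g) (ρ g⁻¹ x) := by
    rw [← Module.End.mul_apply, ← Module.End.mul_apply, ← map_mul, ← map_mul]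
    congr 2
    group
  have h2 : g⁻¹ * σ * g ∈ N := by
    have := hN.conj_mem σ hσ g⁻¹
    rwa [inv_inv] at this
  have h3 : ∀ y, ρ g (ρ (g⁻¹ * σ * g) y) = ρ σ (ρ g y) := by
    intro y
    rw [← Module.End.mul_apply, ← Module.End.mul_apply, ← map_mul, ← map_mul]
    congr 2
    group
  rw [h1, hf _ h2, h3]

/-- The action of `D` on the endomorphisms which commute with `N`. -/
def Final_al {K : Type*} [Field K] {V : Type*} [AddCommGroup V] [Module K V]
    {G : Type*} [Group G] (ρ : Representation K G V) (N D : Subgroup G) (hN : N.Normal) :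
    Representation K D (endN ρ N) where
  toFun σ := (adRep ρ (σ : G)).restrict (fun f hf => Final_endN_stable ρ N hN σ f hf)
  map_one' := by
    refine LinearMap.ext fun f => ?_
    apply Subtype.ext
    change adRep ρ ((1 : D) : G) (f : Module.End K V) = f
    rw [Subgroup.coe_one, map_one]
    rfl
  map_mul' σ τ := by
    refine LinearMap.ext fun f => ?_
    apply Subtype.ext
    change adRep ρ ((σ * τ : D) : G) (f : Module.End K V) = adRep ρ σ (adRep ρ τ f)
    rw [Subgroup.coe_mul, map_mul]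
    rfl

theorem Final_sup_stable {K : Type*} [Field K] {V : Type*} [AddCommGroup V] [Module K V]
    {G : Type*} [Group G] (ρ : Representation K G V) (N D : Subgroup G) (W : Submodule K V)
    (h1 : StableUnder ρ D W) (h2 : StableUnder ρ N W) : StableUnder ρ (D ⊔ N) W := by
  have key : ∀ σ ∈ Subgroup.closure ((D : Set G) ∪ (N : Set G)),
      (∀ x ∈ W, ρ σ x ∈ W) ∧ ∀ x ∈ W, ρ σ⁻¹ x ∈ W := by
    intro σ hσ
    induction hσ using Subgroup.closure_induction with
    | mem σ hσ =>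
      rcases hσ with hσ | hσ
      · exact ⟨h1 σ hσ, h1 _ (D.inv_mem hσ)⟩
      · exact ⟨h2 σ hσ, h2 _ (N.inv_mem hσ)⟩
    | one =>
      rw [inv_one, map_one]
      exact ⟨fun x hx => hx, fun x hx => hx⟩
    | mul a b _ _ ha hb =>
      rw [mul_inv_rev, map_mul, map_mul]
      exact ⟨fun x hx => ha.1 _ (hb.1 x hx), fun x hx => hb.2 _ (ha.2 x hx)⟩
    | inv a _ ha =>
      rw [inv_inv]
      exact ⟨ha.2, ha.1⟩
  intro σ hσ
  rw [Subgroup.sup_eq_closure] at hσ
  exact (key σ hσ).1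

/-- The main theorem.

Proof. `E = endN ρ N` is stable under conjugation by `G` (`N` normal). `preserves` and
`eq_zero_of_gr` with `φ = ρ φ`, `φ' = ρ φ⁻¹` give the hypotheses of `exists_gr` for `E`; with
`end_semisimple` (for `Γ = D`, a compact group as `D` is closed) and `sub_semisimple` every `D`-stable
subspace of `E` has a `D`-stable complement in `E`. By `exists_compl_DN` every `G`-stable `W` has a
complement stable under `D` and `N`, hence under `D ⊔ N` (`Subgroup.closure_induction` or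
`Subgroup.sup`), of finite index; conclude by `exists_compl_of_finiteIndex`. -/
theorem degeneration (ℓ : ℕ) [Fact ℓ.Prime] {G : Type u} [Group G] [TopologicalSpace G]
    [IsTopologicalGroup G] [CompactSpace G] {V : Type v} [AddCommGroup V] [Module ℚ_[ℓ] V]
    [FiniteDimensional ℚ_[ℓ] V] (ρ : Representation ℚ_[ℓ] G V) (hc : IsContinuousRep ρ)
    (N D : Subgroup G) (hN : N.Normal) (hD : IsClosed (D : Set G)) (hDN : (D ⊔ N).FiniteIndex)
    (hss : SemisimpleOn ρ N) (m : ℕ) (F : ℕ → Submodule ℚ_[ℓ] V) (hF0 : F 0 = ⊥) (hFm : F m = ⊤)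
    (hmono : Monotone F) (hFD : ∀ j, StableUnder ρ D (F j))
    (hgr : ∀ j, j < m → SemisimpleBetween ρ D (F j) (F (j + 1)))
    (φ : G) (hφ : φ ∈ D) (ι : AlgebraicClosure ℚ_[ℓ] →+* ℂ) (q : ℝ) (hq : 1 < q) (wt : ℕ → ℤ)
    (hwt : StrictMono wt)
    (hpure : ∀ j, j < m → PureBetween (ρ φ) ι q (wt j) (F j) (F (j + 1)))
    (hE0 : ∃ R : ℚ_[ℓ][X], R ≠ 0 ∧ (∀ f ∈ endN ρ N, aeval (adRep ρ φ) R f = 0) ∧
      ∀ α : AlgebraicClosure ℚ_[ℓ], aeval α R = 0 → ‖ι α‖ = 1) :
    IsSemisimpleRep ρ := by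
  have hφ1 : ρ φ * ρ φ⁻¹ = 1 := by rw [← map_mul, mul_inv_cancel, map_one]
  have hφ2 : ρ φ⁻¹ * ρ φ = 1 := by rw [← map_mul, inv_mul_cancel, map_one]
  have hEφ : ∀ f ∈ endN ρ N, ρ φ * f * ρ φ⁻¹ ∈ endN ρ N := fun f hf =>
    Final_endN_stable ρ N hN φ f hf
  have hFφ : ∀ j, ∀ x ∈ F j, ρ φ x ∈ F j := fun j => hFD j φ hφ
  have hpres := preserves (ρ φ) (ρ φ⁻¹) hφ1 hφ2 ι q hq m F hF0 hFm hmono hFφ wt hwt hpure
    (endN ρ N) hEφ hE0
  have hzero := eq_zero_of_gr (ρ φ) (ρ φ⁻¹) hφ1 hφ2 ι q hq m F hF0 hFm hmono hFφ wt hwt hpure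
    (endN ρ N) hEφ hE0
  obtain ⟨M, i1, i2, i3, τ, hτc, hτs, hτE⟩ := exists_gr ℓ ρ hc D m F hmono hFD hgr
  obtain ⟨J, hJ1, hJ2⟩ := hτE (endN ρ N) hpres hzero
    (fun σ _ f hf => Final_endN_stable ρ N hN σ f hf)
  haveI : CompactSpace D := isCompact_iff_compactSpace.1 hD.isCompact
  have hss2 : IsSemisimpleRep (Final_al ρ N D hN) :=
    sub_semisimple (Final_al ρ N D hN) (adRep τ) J hJ1
      (fun σ f => hJ2 σ f (Final_al ρ N D hN σ f) rfl) (end_semisimple ℓ τ hτc hτs)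
  have hEN : ∀ H : Submodule ℚ_[ℓ] (Module.End ℚ_[ℓ] V), H ≤ endN ρ N →
      (∀ σ ∈ D, ∀ f ∈ H, adRep ρ σ f ∈ H) →
      ∃ C : Submodule ℚ_[ℓ] (Module.End ℚ_[ℓ] V), (∀ σ ∈ D, ∀ f ∈ C, adRep ρ σ f ∈ C) ∧
        H ⊓ C = ⊥ ∧ H ⊔ C = endN ρ N := by
    intro H hH hHD
    obtain ⟨W', hW', hWc⟩ := hss2 (H.comap (endN ρ N).subtype)
      (fun σ f hf => hHD σ σ.2 _ hf)
    rw [isCompl_iff, disjoint_iff, codisjoint_iff] at hWc
    refine ⟨W'.map (endN ρ N).subtype, ?_, ?_, ?_⟩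
    · rintro σ hσ _ ⟨f, hf, rfl⟩
      exact ⟨Final_al ρ N D hN ⟨σ, hσ⟩ f, hW' ⟨σ, hσ⟩ f hf, rfl⟩
    · rw [eq_bot_iff]
      rintro _ ⟨hf1, ⟨f, hf2, rfl⟩⟩
      have h3 : f ∈ H.comap (endN ρ N).subtype ⊓ W' := ⟨hf1, hf2⟩
      rw [hWc.1, Submodule.mem_bot] at h3
      rw [h3, map_zero]
      exact zero_mem _
    · apply le_antisymm
      · refine sup_le hH ?_
        rintro _ ⟨f, _, rfl⟩
        exact f.2
      · intro f hf
        have h3 : (⟨f, hf⟩ : endN ρ N) ∈ H.comap (endN ρ N).subtype ⊔ W' := by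
          rw [hWc.2]
          exact Submodule.mem_top
        obtain ⟨a, ha, b, hb, hab⟩ := Submodule.mem_sup.1 h3
        have h4 : f = (a : Module.End ℚ_[ℓ] V) + (b : Module.End ℚ_[ℓ] V) :=
          (congrArg Subtype.val hab).symm
        rw [h4]
        exact Submodule.add_mem_sup ha ⟨b, hb, rfl⟩
  intro W hW
  obtain ⟨W', h1, h2, h3⟩ := exists_compl_DN ρ N D hN hss hEN W hW
  haveI := hDN
  obtain ⟨W'', h4, h5⟩ := exists_compl_of_finiteIndex ρ (D ⊔ N) W hW
    ⟨W', Final_sup_stable ρ N D W' h1 h2, h3⟩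
  exact ⟨W'', h4, h5⟩

end Pool.Agent.T10D
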