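import Pool.Agent.W_b4801b_t10d.Final

/-! The degeneration theorem, with packaged hypotheses. -/

set_option autoImplicit false

noncomputable section

open Polynomial

universe u v

namespace Pool.Agent.T10D

open Pool.Agent.B4801b

section Generic

variable {K : Type*} [Field K] {V : Type*} [AddCommGroup V] [Module K V] {G : Type*} [Group G]

/-- The endomorphism `f` commutes with `N`. -/
def CommutesN (ρ : Representation K G V) (N : Subgroup G) (f : Module.End K V) : Prop :=
  ∀ σ ∈ N, ∀ x, f (ρ σ x) = ρ σ (f x)

/-- The value at `x` of the endomorphism `ρ(φ) ^ i f ρ(φ) ^ (-i)`. -/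
def conjVal (ρ : Representation K G V) (φ : G) (f : Module.End K V) (x : V) (i : ℕ) : V :=
  ρ (φ ^ i) (f (ρ (φ ^ i)⁻¹ x))

/-- The polynomial `R` in the conjugation by `φ` annihilates the endomorphisms which commute with `N`:
`∑ R_i ρ(φ) ^ i f ρ(φ) ^ (-i) = 0`. -/
def KillsEnd (ρ : Representation K G V) (N : Subgroup G) (φ : G) (R : K[X]) : Prop :=
  ∀ f, CommutesN ρ N f → ∀ x, R.sum (fun i c => c • conjVal ρ φ f x i) = 0

/-- The conjugation by `φ` on the endomorphisms which commute with `N` is pure of weight `0`: it is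
annihilated by a polynomial all of whose roots have absolute value `1`. -/
def EndPure (ρ : Representation K G V) (N : Subgroup G) (φ : G) (ι : AlgebraicClosure K →+* ℂ) :
    Prop :=
  ∃ R : K[X], R ≠ 0 ∧ KillsEnd ρ N φ R ∧ ∀ α : AlgebraicClosure K, aeval α R = 0 → ‖ι α‖ = 1

theorem adRep_of_killsEnd (ρ : Representation K G V) (N : Subgroup G) (φ : G) (R : K[X])
    (h : KillsEnd ρ N φ R) : ∀ f ∈ endN ρ N, aeval (adRep ρ φ) R f = 0 := by
  intro f hf
  ext x
  have h1 := h f hf x
  rw [LinearMap.zero_apply, ← h1, Polynomial.aeval_eq_sum_range, Polynomial.sum_over_range]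
  · simp only [LinearMap.sum_apply, LinearMap.smul_apply]
    refine Finset.sum_congr rfl fun i _ => ?_
    rw [← map_pow]
    rfl
  · intro i
    rw [zero_smul]

/-- A weight filtration of `V` for the subgroup `D` and its element `φ`: a finite increasing filtration
by `D`-stable subspaces `F j`, such that `φ` is pure of weight `wt j` on `F (j + 1) / F j`, with
`wt 0 < wt 1 < …`. -/
structure WeightFil (ρ : Representation K G V) (D : Subgroup G) (φ : G)
    (ι : AlgebraicClosure K →+* ℂ) where
  m : ℕ
  F : ℕ → Submodule K V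
  bot : F 0 = ⊥
  top : F m = ⊤
  mono : Monotone F
  stable : ∀ j, StableUnder ρ D (F j)
  q : ℝ
  one_lt : 1 < q
  wt : ℕ → ℤ
  strictMono : StrictMono wt
  pure : ∀ j, j < m → PureBetween (ρ φ) ι q (wt j) (F j) (F (j + 1))

/-- The graded pieces `F (j + 1) / F j` of the filtration are semisimple representations of `D`. -/
def WeightFil.GradedSemisimple {ρ : Representation K G V} {D : Subgroup G} {φ : G}
    {ι : AlgebraicClosure K →+* ℂ} (W : WeightFil ρ D φ ι) : Prop :=
  ∀ j, j < W.m → SemisimpleBetween ρ D (W.F j) (W.F (j + 1))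

end Generic

end Pool.Agent.T10D
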