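import Pool.Agent.W_b4801b_t10d.Eig

/-! Equivariant endomorphisms respect the weight filtration. -/

set_option autoImplicit false

noncomputable section

open Polynomial

namespace Pool.Agent.T10D

variable {K : Type*} [Field K] {V : Type*} [AddCommGroup V] [Module K V] [FiniteDimensional K V]

omit [FiniteDimensional K V] in
theorem Wt_no (ι : AlgebraicClosure K →+* ℂ) (q : ℝ) (hq : 1 < q) (w1 w2 : ℤ) (hw : w1 ≠ w2)
    (r α β : AlgebraicClosure K) (hr : ‖ι r‖ = 1) (hα : ‖ι α‖ = q ^ ((w1 : ℝ) / 2))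
    (hβ : ‖ι β‖ = q ^ ((w2 : ℝ) / 2)) : β ≠ r * α := by
  intro h
  rw [h, map_mul, norm_mul, hr, hα, one_mul] at hβ
  have hq0 : 0 < q := by linarith
  have h3 : (w1 : ℝ) / 2 = (w2 : ℝ) / 2 := by
    have h4 := congrArg Real.log hβ
    rw [Real.log_rpow hq0, Real.log_rpow hq0] at h4
    have h5 : Real.log q ≠ 0 := (Real.log_pos hq).ne'
    exact mul_right_cancel₀ h5 h4
  have h6 : (w1 : ℝ) = (w2 : ℝ) := by linarith
  exact hw (by exact_mod_cast h6)

theorem Wt_inv (φ φ' : Module.End K V) (h2 : φ' * φ = 1) (W : Submodule K V)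
    (hW : ∀ x ∈ W, φ x ∈ W) : ∀ x ∈ W, φ' x ∈ W := by
  intro x hx
  have hinv : ∀ y, φ' (φ y) = y := fun y => by
    have := congrArg (fun g : Module.End K V => g y) h2
    simpa using this
  have hinj : Function.Injective (LinearMap.restrict φ hW) := by
    intro y z hyz
    have h3 : φ (y : V) = φ (z : V) := by
      have := congrArg (fun u : W => (u : V)) hyz
      simpa using this
    apply Subtype.ext
    rw [← hinv y, ← hinv z, h3]
  have hsur : Function.Surjective (LinearMap.restrict φ hW) :=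
    LinearMap.surjective_of_injective hinj
  obtain ⟨y, hy⟩ := hsur ⟨x, hx⟩
  have h3 : φ (y : V) = x := by
    have := congrArg (fun u : W => (u : V)) hy
    simpa using this
  rw [← h3, hinv]
  exact y.2

/-- Let `F` be a filtration stable under the invertible operator `φ`, pure of strictly increasing
weights, and `E` a space of endomorphisms stable under conjugation by `φ`, on which this conjugation is
pure of weight `0`. Then all `f ∈ E` preserve the filtration.

Proof. Fix `j ≤ m`. Claim: `f(F j) ⊆ F i` for all `f ∈ E` and all `i ≥ j`, by descending induction on `i`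
from `i = m`. Step `i + 1 → i` (`i ≥ j`): show by induction on `r ≤ j` that `f(F r) ⊆ F i` for all
`f ∈ E`: for `r = 0` clear; `r → r + 1 ≤ j`: `eig_sub` with `A₀ = F r`, `A₁ = F (r + 1)`, `B₀ = F i`,
`B₁ = F (i + 1)`; `f(A₁) ⊆ F (i + 1)` by the outer induction hypothesis and monotonicity, `f(A₀) ⊆ F i` by
the inner one; `p` = the polynomial for `F (r + 1) / F r`, `s` = the one for `F (i + 1) / F i`, and
`|ι(r' α)| = q ^ (wt r / 2) ≠ q ^ (wt i / 2) = |ι(β)|` as `r < i`. -/
theorem preserves (φ φ' : Module.End K V) (h1 : φ * φ' = 1) (h2 : φ' * φ = 1)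
    (ι : AlgebraicClosure K →+* ℂ) (q : ℝ) (hq : 1 < q) (m : ℕ) (F : ℕ → Submodule K V)
    (hF0 : F 0 = ⊥) (hFm : F m = ⊤) (hmono : Monotone F) (hφ : ∀ j, ∀ x ∈ F j, φ x ∈ F j)
    (wt : ℕ → ℤ) (hwt : StrictMono wt)
    (hpure : ∀ j, j < m → PureBetween φ ι q (wt j) (F j) (F (j + 1)))
    (E : Submodule K (Module.End K V)) (hE : ∀ f ∈ E, φ * f * φ' ∈ E)
    (hE0 : ∃ R : K[X], R ≠ 0 ∧
      (∀ f ∈ E, aeval (LinearMap.mulLeft K φ ∘ₗ LinearMap.mulRight K φ') R f = 0) ∧
      ∀ α : AlgebraicClosure K, aeval α R = 0 → ‖ι α‖ = 1) :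
    ∀ f ∈ E, ∀ j, j ≤ m → ∀ x ∈ F j, f x ∈ F j := by
  obtain ⟨R, hR, hRt, hR1⟩ := hE0
  intro f hf j hj
  have key : ∀ d i : ℕ, i + d = m → j ≤ i → ∀ r, r ≤ j → ∀ f ∈ E, ∀ x ∈ F r, f x ∈ F i := by
    intro d
    induction d with
    | zero =>
      intro i hi _ r _ f _ x _
      have : i = m := by omega
      rw [this, hFm]
      exact Submodule.mem_top
    | succ d ihd =>
      intro i hi hji r
      induction r with
      | zero =>
        intro _ f _ x hx
        rw [hF0, Submodule.mem_bot] at hx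
        rw [hx, map_zero]
        exact zero_mem _
      | succ r ihr =>
        intro hr
        obtain ⟨p, hp, hpa, hpn⟩ := hpure r (by omega)
        obtain ⟨s, hs, hsb, hsn⟩ := hpure i (by omega)
        exact eig_sub φ φ' h1 h2 (F r) (F (r + 1)) (F i) (F (i + 1)) (hmono (by omega))
          (hmono (by omega)) (hφ r) (hφ (r + 1)) (hφ i) (hφ (i + 1)) E hE
          (fun f hf x hx => ihd (i + 1) (by omega) (by omega) (r + 1) hr f hf x hx)
          (fun f hf x hx => ihr (by omega) f hf x hx) p s R hp hs hR hpa hsb hRt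
          (fun r' α β h3 h4 h5 => Wt_no ι q hq (wt r) (wt i)
            (fun h => by
              have := hwt.injective h
              omega) r' α β (hR1 r' h3) (hpn α h4) (hsn β h5))
  exact key (m - j) j (by omega) le_rfl j le_rfl f hf

/-- In the same situation, an element of `E` which is zero on all graded pieces is zero.

Proof. `E' = {f ∈ E | f(F (j + 1)) ⊆ F j for all j < m}` is a subspace stable under conjugation by `φ`. Show
`f(F j) = 0` for all `f ∈ E'` by induction on `j`: let this hold for `j`, `j < m`; show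
`f(F (j + 1)) ⊆ F i` for `i ≤ j` by descending induction on `i` starting with `i = j`: the step
`i + 1 → i` is `eig_sub` with `A₀ = F j`, `A₁ = F (j + 1)`, `B₀ = F i`, `B₁ = F (i + 1)` (`f(A₀) = 0`). For
`i = 0`: `f(F (j + 1)) = 0`. -/
theorem eq_zero_of_gr (φ φ' : Module.End K V) (h1 : φ * φ' = 1) (h2 : φ' * φ = 1)
    (ι : AlgebraicClosure K →+* ℂ) (q : ℝ) (hq : 1 < q) (m : ℕ) (F : ℕ → Submodule K V)
    (hF0 : F 0 = ⊥) (hFm : F m = ⊤) (hmono : Monotone F) (hφ : ∀ j, ∀ x ∈ F j, φ x ∈ F j)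
    (wt : ℕ → ℤ) (hwt : StrictMono wt)
    (hpure : ∀ j, j < m → PureBetween φ ι q (wt j) (F j) (F (j + 1)))
    (E : Submodule K (Module.End K V)) (hE : ∀ f ∈ E, φ * f * φ' ∈ E)
    (hE0 : ∃ R : K[X], R ≠ 0 ∧
      (∀ f ∈ E, aeval (LinearMap.mulLeft K φ ∘ₗ LinearMap.mulRight K φ') R f = 0) ∧
      ∀ α : AlgebraicClosure K, aeval α R = 0 → ‖ι α‖ = 1) :
    ∀ f ∈ E, (∀ j, j < m → ∀ x ∈ F (j + 1), f x ∈ F j) → f = 0 := by
  obtain ⟨R, hR, hRt, hR1⟩ := hE0
  let E' : Submodule K (Module.End K V) :=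
    { carrier := {f | f ∈ E ∧ ∀ j, j < m → ∀ x ∈ F (j + 1), f x ∈ F j}
      add_mem' := by
        rintro f g ⟨hf1, hf2⟩ ⟨hg1, hg2⟩
        refine ⟨E.add_mem hf1 hg1, fun j hj x hx => ?_⟩
        rw [LinearMap.add_apply]
        exact (F j).add_mem (hf2 j hj x hx) (hg2 j hj x hx)
      zero_mem' := ⟨E.zero_mem, fun j _ x _ => by
        rw [LinearMap.zero_apply]
        exact zero_mem _⟩
      smul_mem' := by
        rintro c f ⟨hf1, hf2⟩
        refine ⟨E.smul_mem c hf1, fun j hj x hx => ?_⟩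
        rw [LinearMap.smul_apply]
        exact (F j).smul_mem c (hf2 j hj x hx) }
  have hE'1 : ∀ f ∈ E', f ∈ E := fun f hf => hf.1
  have hE'2 : ∀ f ∈ E', ∀ j, j < m → ∀ x ∈ F (j + 1), f x ∈ F j := fun f hf => hf.2
  have hE'φ : ∀ f ∈ E', φ * f * φ' ∈ E' := by
    intro f hf
    refine ⟨hE f (hE'1 f hf), fun j hj x hx => ?_⟩
    rw [Module.End.mul_apply, Module.End.mul_apply]
    exact hφ j _ (hE'2 f hf j hj _ (Wt_inv φ φ' h2 (F (j + 1)) (hφ (j + 1)) x hx))
  have key : ∀ j, j ≤ m → ∀ f ∈ E', ∀ x ∈ F j, f x = 0 := by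
    intro j
    induction j with
    | zero =>
      intro _ f _ x hx
      rw [hF0, Submodule.mem_bot] at hx
      rw [hx, map_zero]
    | succ j ihj =>
      intro hj
      have key2 : ∀ d i : ℕ, i + d = j → ∀ f ∈ E', ∀ x ∈ F (j + 1), f x ∈ F i := by
        intro d
        induction d with
        | zero =>
          intro i hi f hf x hx
          have : i = j := by omega
          rw [this]
          exact hE'2 f hf j (by omega) x hx
        | succ d ihd =>
          intro i hi
          obtain ⟨p, hp, hpa, hpn⟩ := hpure j (by omega)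
          obtain ⟨s, hs, hsb, hsn⟩ := hpure i (by omega)
          exact eig_sub φ φ' h1 h2 (F j) (F (j + 1)) (F i) (F (i + 1)) (hmono (by omega))
            (hmono (by omega)) (hφ j) (hφ (j + 1)) (hφ i) (hφ (i + 1)) E' hE'φ
            (fun f hf x hx => ihd (i + 1) (by omega) f hf x hx)
            (fun f hf x hx => by
              rw [ihj (by omega) f hf x hx]
              exact zero_mem _) p s R hp hs hR hpa hsb (fun f hf => hRt f (hE'1 f hf))
            (fun r' α β h3 h4 h5 => Wt_no ι q hq (wt j) (wt i)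
              (fun h => by
                have := hwt.injective h
                omega) r' α β (hR1 r' h3) (hpn α h4) (hsn β h5))
      intro f hf x hx
      have h3 := key2 j 0 (by omega) f hf x hx
      rw [hF0, Submodule.mem_bot] at h3
      exact h3
  intro f hf hf2
  ext x
  rw [LinearMap.zero_apply]
  exact key m le_rfl f ⟨hf, hf2⟩ x (by rw [hFm]; exact Submodule.mem_top)

end Pool.Agent.T10D
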